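import Pool.Agent.GridLat.Defs
import Pool.Agent.Grain.Main

/-!
# From a grid in the Euclidean plane to its normal form
-/

set_option autoImplicit false

namespace Pool.Agent.GridLat

open Pool.Agent.Grain (Pl)

theorem sin_angle_mul (x y : Pl) :
    Real.sin (InnerProductGeometry.angle x y) * (‖x‖ * ‖y‖) = |Pool.Agent.Grain.cr x y| := by
  set t := InnerProductGeometry.angle x y with ht
  have hcos : Real.cos t * (‖x‖ * ‖y‖) = inner ℝ x y :=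
    InnerProductGeometry.cos_angle_mul_norm_mul_norm x y
  have hsin0 : 0 ≤ Real.sin t := InnerProductGeometry.sin_angle_nonneg _ _
  have h1 : (Real.sin t * (‖x‖ * ‖y‖)) ^ 2 = |Pool.Agent.Grain.cr x y| ^ 2 := by
    have h2 := Pool.Agent.Grain.lagrange x y
    have h3 := Real.sin_sq_add_cos_sq t
    rw [sq_abs, mul_pow]
    rw [← hcos, mul_pow] at h2
    nlinarith
  exact (pow_left_inj₀ (by positivity) (abs_nonneg _) two_ne_zero).1 h1

/-- all three angles of a triangle at least `A`: the determinant is large -/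
theorem cr_ge_of_angles {p q r : Pl} {A : ℝ} (hA : 0 ≤ A) (hpq : p ≠ q)
    (h1 : A ≤ EuclideanGeometry.angle q p r)
    (h2 : A ≤ EuclideanGeometry.angle p q r) (h3 : A ≤ EuclideanGeometry.angle p r q) :
    2 / Real.pi * A * (‖q - p‖ * ‖r - p‖) ≤ |Pool.Agent.Grain.cr (q - p) (r - p)| := by
  have hpi := Real.pi_pos
  set t := EuclideanGeometry.angle q p r with ht
  have hsum := EuclideanGeometry.angle_add_angle_add_angle_eq_pi (p₁ := q) (p₂ := p) r hpq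
  rw [EuclideanGeometry.angle_comm r q p] at hsum
  have ht0 : 0 ≤ t := EuclideanGeometry.angle_nonneg _ _ _
  have hsin : 2 / Real.pi * A ≤ Real.sin t := by
    rcases le_total t (Real.pi / 2) with h | h
    · calc 2 / Real.pi * A ≤ 2 / Real.pi * t := by gcongr
        _ ≤ Real.sin t := Real.mul_le_sin ht0 h
    · have h4 : Real.pi - t ≤ Real.pi / 2 := by linarith
      have h5 : A ≤ Real.pi - t := by linarith
      have h6 : 0 ≤ Real.pi - t := by linarith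
      calc 2 / Real.pi * A ≤ 2 / Real.pi * (Real.pi - t) := by gcongr
        _ ≤ Real.sin (Real.pi - t) := Real.mul_le_sin h6 h4
        _ = Real.sin t := Real.sin_pi_sub t
  have h7 := sin_angle_mul (q - p) (r - p)
  have h8 : InnerProductGeometry.angle (q - p) (r - p) = t := rfl
  rw [h8] at h7
  rw [← h7]
  gcongr

/-- coordinates with respect to a basis -/
noncomputable def coord (e₁ e₂ u : Pl) : ℝ × ℝ :=
  (Pool.Agent.Grain.cr u e₂ / Pool.Agent.Grain.cr e₁ e₂,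
    Pool.Agent.Grain.cr e₁ u / Pool.Agent.Grain.cr e₁ e₂)

theorem coord_sub (e₁ e₂ u v : Pl) : coord e₁ e₂ (u - v) = coord e₁ e₂ u - coord e₁ e₂ v := by
  unfold coord Pool.Agent.Grain.cr
  ext <;> simp only [PiLp.sub_apply, Prod.fst_sub, Prod.snd_sub] <;> ring

theorem coord_left {e₁ e₂ : Pl} (h : Pool.Agent.Grain.cr e₁ e₂ ≠ 0) :
    coord e₁ e₂ e₁ = (1, 0) := by
  unfold coord
  ext
  · exact div_self h
  · have : Pool.Agent.Grain.cr e₁ e₁ = 0 := by unfold Pool.Agent.Grain.cr; ring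
    simp [this]

theorem coord_right {e₁ e₂ : Pl} (h : Pool.Agent.Grain.cr e₁ e₂ ≠ 0) :
    coord e₁ e₂ e₂ = (0, 1) := by
  unfold coord
  ext
  · have : Pool.Agent.Grain.cr e₂ e₂ = 0 := by unfold Pool.Agent.Grain.cr; ring
    simp [this]
  · exact div_self h

theorem cr_coord {e₁ e₂ : Pl} (h : Pool.Agent.Grain.cr e₁ e₂ ≠ 0) (u v : Pl) :
    cr (coord e₁ e₂ u) (coord e₁ e₂ v) =
      Pool.Agent.Grain.cr u v / Pool.Agent.Grain.cr e₁ e₂ := by
  have h2 : Pool.Agent.Grain.cr u e₂ * Pool.Agent.Grain.cr e₁ v -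
      Pool.Agent.Grain.cr e₁ u * Pool.Agent.Grain.cr v e₂ =
      Pool.Agent.Grain.cr u v * Pool.Agent.Grain.cr e₁ e₂ := by
    unfold Pool.Agent.Grain.cr; ring
  unfold cr coord
  simp only
  rw [div_mul_div_comm, div_mul_div_comm, ← sub_div, h2]
  field_simp

theorem norm_coord_le {e₁ e₂ : Pl} {B : ℝ} (h1 : ‖e₁‖ ≤ B) (h2 : ‖e₂‖ ≤ B) (u : Pl) :
    ‖coord e₁ e₂ u‖ ≤ ‖u‖ * B / |Pool.Agent.Grain.cr e₁ e₂| := by
  have h3 : |Pool.Agent.Grain.cr u e₂| ≤ ‖u‖ * B :=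
    (Pool.Agent.Grain.abs_cr_le u e₂).trans (mul_le_mul_of_nonneg_left h2 (norm_nonneg _))
  have h4 : |Pool.Agent.Grain.cr e₁ u| ≤ ‖u‖ * B := by
    refine (Pool.Agent.Grain.abs_cr_le e₁ u).trans ?_
    rw [mul_comm]
    exact mul_le_mul_of_nonneg_left h1 (norm_nonneg _)
  rw [Prod.norm_def]
  apply max_le
  · rw [Real.norm_eq_abs]
    simp only [coord]
    rw [abs_div]
    gcongr
  · rw [Real.norm_eq_abs]
    simp only [coord]
    rw [abs_div]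
    gcongr

/-- `X` contains a bent grid: a piece of size `r` of a grid with spacing `1 / √n`, all differences
of neighbours are within `ε / √n` of two fixed vectors -/
def HasBentGrid {n : ℕ} (X : Fin n → Pl) (κ K r ε : ℝ) : Prop :=
  ∃ (e₁ e₂ : Pl) (ψ : ℤ → ℤ → Fin n), ‖e₁‖ ≤ K / √n ∧ ‖e₂‖ ≤ K / √n ∧
    κ / n ≤ |Pool.Agent.Grain.cr e₁ e₂| ∧
    ∀ a b : ℤ, |(a : ℝ)| ≤ r * √n → |(b : ℝ)| ≤ r * √n →
      (|((a + 1 : ℤ) : ℝ)| ≤ r * √n → ‖X (ψ (a + 1) b) - X (ψ a b) - e₁‖ ≤ ε / √n) ∧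
      (|((b + 1 : ℤ) : ℝ)| ≤ r * √n → ‖X (ψ a (b + 1)) - X (ψ a b) - e₂‖ ≤ ε / √n)

theorem abs_le_of_box {m : ℤ} {N : ℝ} (hm : (m : ℝ) ≤ N) {a : ℤ} (ha : |a| ≤ m) :
    |(a : ℝ)| ≤ N := by
  have : ((|a| : ℤ) : ℝ) ≤ m := by exact_mod_cast ha
  rw [Int.cast_abs] at this
  linarith

/-- a grid is injective on the box -/
theorem Near.inj {m : ℤ} {δ : ℝ} {Q : ℤ × ℤ → ℝ × ℝ} (h : Near m δ Q)
    (hδ2 : 2 * δ < 1) {x y : ℤ × ℤ} (hx : box m x) (hy : box m y) (hxy : x ≠ y) : Q x ≠ Q y := by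
  intro heq
  have e1 : x + (y - x) = y := by abel
  have h1 := h.lip x (y - x) hx (by rw [e1]; exact hy)
  rw [e1, heq, sub_self, zero_sub, norm_neg] at h1
  set u := y - x with hu
  have hu0 : u ≠ 0 := sub_ne_zero.2 hxy.symm
  have h2 : |(u.1 : ℝ)| ≤ ‖vv u‖ := norm_fst_le (vv u)
  have h3 : |(u.2 : ℝ)| ≤ ‖vv u‖ := norm_snd_le (vv u)
  have h4 : (0 : ℝ) < |(u.1 : ℝ)| + |(u.2 : ℝ)| := by
    by_contra h5
    push Not at h5
    have h6 : |(u.1 : ℝ)| = 0 := le_antisymm (by linarith [abs_nonneg (u.2 : ℝ)]) (abs_nonneg _)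
    have h7 : |(u.2 : ℝ)| = 0 := le_antisymm (by linarith [abs_nonneg (u.1 : ℝ)]) (abs_nonneg _)
    apply hu0
    ext
    · exact_mod_cast abs_eq_zero.1 h6
    · exact_mod_cast abs_eq_zero.1 h7
  nlinarith

/-- the normal form of a bent grid -/
theorem normal_form {n : ℕ} (hn : 1 ≤ n) {X : Fin n → Pl} (hinj : Function.Injective X)
    {κ K r ε A : ℝ} (hκ : 0 < κ) (hK : 0 < K) (hε : 0 ≤ ε) (hεK : 2 * (ε * K / κ) < 1)
    (hX : HasBentGrid X κ K r ε) (hA0 : 0 ≤ A)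
    (hA : ∀ i j k : Fin n, i ≠ j → j ≠ k → i ≠ k → A ≤ EuclideanGeometry.angle (X i) (X j) (X k))
    {m : ℤ} (hm : (m : ℝ) ≤ r * √n) :
    ∃ (e₁ : Pl) (ψ : ℤ → ℤ → Fin n) (Q : ℤ × ℤ → ℝ × ℝ), ‖e₁‖ ≤ K / √n ∧
      Near m (ε * K / κ) Q ∧ Wide m (2 * κ / (Real.pi * K ^ 2) * A) Q ∧
      (∀ x y, box m x → box m y → x ≠ y → ψ x.1 x.2 ≠ ψ y.1 y.2) ∧
      (∀ z : ℤ × ℤ, box m z → box m (z + (1, 0)) →
        ‖X (ψ (z.1 + 1) z.2) - X (ψ z.1 z.2) - e₁‖ ≤ ε / √n) := by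
  obtain ⟨e₁, e₂, ψ, h1, h2, h3, h4⟩ := hX
  have hpi := Real.pi_pos
  have hnr : (1 : ℝ) ≤ n := by exact_mod_cast hn
  have hn0 : (0 : ℝ) < n := by linarith
  have hsq : 0 < √(n : ℝ) := Real.sqrt_pos.2 hn0
  have hsqsq : √(n : ℝ) * √(n : ℝ) = n := Real.mul_self_sqrt hn0.le
  have hΔpos : 0 < |Pool.Agent.Grain.cr e₁ e₂| := lt_of_lt_of_le (by positivity) h3
  have hΔ : Pool.Agent.Grain.cr e₁ e₂ ≠ 0 := abs_pos.1 hΔpos
  set Q : ℤ × ℤ → ℝ × ℝ := fun z => coord e₁ e₂ (X (ψ z.1 z.2)) with hQ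
  have hsmall : ∀ w : Pl, ‖w‖ ≤ ε / √n → ‖coord e₁ e₂ w‖ ≤ ε * K / κ := by
    intro w hw
    refine (norm_coord_le h1 h2 w).trans ?_
    rw [div_le_div_iff₀ hΔpos hκ]
    calc ‖w‖ * (K / √n) * κ ≤ (ε / √n) * (K / √n) * κ := by gcongr
      _ = ε * K * κ / (√n * √n) := by ring
      _ = ε * K * (κ / n) := by rw [hsqsq]; ring
      _ ≤ ε * K * |Pool.Agent.Grain.cr e₁ e₂| := by gcongr
  have hnear : Near m (ε * K / κ) Q := by
    intro z hz
    have hz1 := abs_le_of_box hm hz.1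
    have hz2 := abs_le_of_box hm hz.2
    refine ⟨fun hb => ?_, fun hb => ?_⟩
    · have hb1 : |((z.1 + 1 : ℤ) : ℝ)| ≤ r * √n := abs_le_of_box hm (by simpa using hb.1)
      have h5 := (h4 z.1 z.2 hz1 hz2).1 hb1
      have h6 : Q (z + (1, 0)) - Q z - (1, 0) =
          coord e₁ e₂ (X (ψ (z.1 + 1) z.2) - X (ψ z.1 z.2) - e₁) := by
        rw [coord_sub, coord_sub, coord_left hΔ]
        simp [hQ]
      rw [h6]
      exact hsmall _ h5
    · have hb1 : |((z.2 + 1 : ℤ) : ℝ)| ≤ r * √n := abs_le_of_box hm (by simpa using hb.2)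
      have h5 := (h4 z.1 z.2 hz1 hz2).2 hb1
      have h6 : Q (z + (0, 1)) - Q z - (0, 1) =
          coord e₁ e₂ (X (ψ z.1 (z.2 + 1)) - X (ψ z.1 z.2) - e₂) := by
        rw [coord_sub, coord_sub, coord_right hΔ]
        simp [hQ]
      rw [h6]
      exact hsmall _ h5
  have hδ0 : 0 ≤ ε * K / κ := by positivity
  have hψ : ∀ x y, box m x → box m y → x ≠ y → ψ x.1 x.2 ≠ ψ y.1 y.2 := by
    intro x y hx hy hxy heq
    apply hnear.inj hεK hx hy hxy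
    simp only [hQ, heq]
  refine ⟨e₁, ψ, Q, h1, hnear, ?_, hψ, ?_⟩
  · intro x y z hx hy hz hxy hxz hyz
    have i1 := hψ x y hx hy hxy
    have i2 := hψ x z hx hz hxz
    have i3 := hψ y z hy hz hyz
    have hcr := cr_ge_of_angles (p := X (ψ x.1 x.2)) (q := X (ψ y.1 y.2)) (r := X (ψ z.1 z.2)) hA0
      (hinj.ne i1) (hA _ _ _ i1.symm i2 i3) (hA _ _ _ i1 i3 i2)
      (hA _ _ _ i2 i3.symm i1)
    set u := X (ψ y.1 y.2) - X (ψ x.1 x.2) with hu
    set v := X (ψ z.1 z.2) - X (ψ x.1 x.2) with hv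
    have e1 : Q y - Q x = coord e₁ e₂ u := by rw [hu, coord_sub]
    have e2 : Q z - Q x = coord e₁ e₂ v := by rw [hv, coord_sub]
    rw [e1, e2, cr_coord hΔ, abs_div, le_div_iff₀ hΔpos]
    have n1 := norm_coord_le h1 h2 u
    have n2 := norm_coord_le h1 h2 v
    calc 2 * κ / (Real.pi * K ^ 2) * A * ‖coord e₁ e₂ u‖ * ‖coord e₁ e₂ v‖ *
          |Pool.Agent.Grain.cr e₁ e₂| ≤
        2 * κ / (Real.pi * K ^ 2) * A * (‖u‖ * (K / √n) / |Pool.Agent.Grain.cr e₁ e₂|) *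
          (‖v‖ * (K / √n) / |Pool.Agent.Grain.cr e₁ e₂|) * |Pool.Agent.Grain.cr e₁ e₂| := by
          gcongr
      _ = 2 / Real.pi * A * (‖u‖ * ‖v‖) *
          ((κ / (√n * √n)) / |Pool.Agent.Grain.cr e₁ e₂|) := by
          field_simp
      _ ≤ 2 / Real.pi * A * (‖u‖ * ‖v‖) * 1 := by
          gcongr
          rw [div_le_one hΔpos, hsqsq]
          exact h3
      _ = 2 / Real.pi * A * (‖u‖ * ‖v‖) := mul_one _
      _ ≤ |Pool.Agent.Grain.cr u v| := hcr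
  · intro z hz hb
    have hz1 := abs_le_of_box hm hz.1
    have hz2 := abs_le_of_box hm hz.2
    exact (h4 z.1 z.2 hz1 hz2).1 (abs_le_of_box hm (by simpa using hb.1))

end Pool.Agent.GridLat
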