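import Mathlib

/-!
# Grids whose neighbour differences are almost constant
-/

set_option autoImplicit false

namespace Pool.Agent.GridLat

/-- The 2 × 2 determinant. -/
def cr (p q : ℝ × ℝ) : ℝ := p.1 * q.2 - p.2 * q.1

/-- The determinant of a triangle. -/
def br (p q r : ℝ × ℝ) : ℝ := cr (q - p) (r - p)

/-- An integer vector as a real vector. -/
def vv (u : ℤ × ℤ) : ℝ × ℝ := ((u.1 : ℝ), (u.2 : ℝ))

/-- The points of the grid. -/
def box (m : ℤ) (z : ℤ × ℤ) : Prop := |z.1| ≤ m ∧ |z.2| ≤ m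

/-- The differences of neighbours are `δ`-close to the unit vectors. -/
def Near (m : ℤ) (δ : ℝ) (Q : ℤ × ℤ → ℝ × ℝ) : Prop :=
  ∀ z, box m z → (box m (z + (1, 0)) → ‖Q (z + (1, 0)) - Q z - (1, 0)‖ ≤ δ) ∧
    (box m (z + (0, 1)) → ‖Q (z + (0, 1)) - Q z - (0, 1)‖ ≤ δ)

/-- No three points are almost collinear. -/
def Wide (m : ℤ) (a : ℝ) (Q : ℤ × ℤ → ℝ × ℝ) : Prop :=
  ∀ x y z, box m x → box m y → box m z → x ≠ y → x ≠ z → y ≠ z →
    a * ‖Q y - Q x‖ * ‖Q z - Q x‖ ≤ |cr (Q y - Q x) (Q z - Q x)|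

theorem abs_cr_le (p q : ℝ × ℝ) : |cr p q| ≤ 2 * ‖p‖ * ‖q‖ := by
  have h1 : |p.1| ≤ ‖p‖ := norm_fst_le p
  have h2 : |p.2| ≤ ‖p‖ := norm_snd_le p
  have h3 : |q.1| ≤ ‖q‖ := norm_fst_le q
  have h4 : |q.2| ≤ ‖q‖ := norm_snd_le q
  have h0 := norm_nonneg p
  have h5 : |p.1 * q.2| ≤ ‖p‖ * ‖q‖ := by
    rw [abs_mul]; exact mul_le_mul h1 h4 (abs_nonneg _) h0
  have h6 : |p.2 * q.1| ≤ ‖p‖ * ‖q‖ := by
    rw [abs_mul]; exact mul_le_mul h2 h3 (abs_nonneg _) h0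
  unfold cr
  calc _ ≤ |p.1 * q.2| + |p.2 * q.1| := abs_sub _ _
    _ ≤ _ := by linarith

/-- The identity between three plane vectors. -/
theorem cr_smul (A B G : ℝ × ℝ) : cr A B • G = cr A G • B - cr B G • A := by
  ext <;> simp only [cr, Prod.smul_fst, Prod.smul_snd, Prod.fst_sub, Prod.snd_sub, smul_eq_mul] <;>
    ring

theorem cr_add_left (p q r : ℝ × ℝ) : cr (p + q) r = cr p r + cr q r := by
  simp only [cr, Prod.fst_add, Prod.snd_add]; ring

theorem cr_add_right (p q r : ℝ × ℝ) : cr p (q + r) = cr p q + cr p r := by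
  simp only [cr, Prod.fst_add, Prod.snd_add]; ring

theorem cr_sub_left (p q r : ℝ × ℝ) : cr (p - q) r = cr p r - cr q r := by
  simp only [cr, Prod.fst_sub, Prod.snd_sub]; ring

theorem cr_sub_right (p q r : ℝ × ℝ) : cr p (q - r) = cr p q - cr p r := by
  simp only [cr, Prod.fst_sub, Prod.snd_sub]; ring

theorem cr_self (p : ℝ × ℝ) : cr p p = 0 := by
  simp only [cr]; ring

theorem cr_swap (p q : ℝ × ℝ) : cr p q = -cr q p := by
  simp only [cr]; ring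

theorem Near.lip1 {m : ℤ} {δ : ℝ} {Q : ℤ × ℤ → ℝ × ℝ} (h : Near m δ Q) (n : ℕ) :
    ∀ z : ℤ × ℤ, box m z → box m (z + ((n : ℤ), 0)) →
      ‖Q (z + ((n : ℤ), 0)) - Q z - ((n : ℝ), 0)‖ ≤ δ * n := by
  induction n with
  | zero =>
    intro z _ _
    have e0 : z + (((0 : ℕ) : ℤ), 0) = z := by ext <;> simp
    rw [e0]
    simp
  | succ n ih =>
    intro z hz hz'
    have hb : box m (z + ((n : ℤ), 0)) := by
      obtain ⟨h1, h2⟩ := hz
      obtain ⟨h3, h4⟩ := hz'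
      simp only [Prod.fst_add, Prod.snd_add] at h3 h4
      refine ⟨?_, ?_⟩
      · simp only [Prod.fst_add]
        rw [abs_le] at h1 h3 ⊢
        push_cast at h3
        omega
      · simpa using h2
    have e1 : z + (((n + 1 : ℕ) : ℤ), 0) = z + ((n : ℤ), 0) + (1, 0) := by
      ext <;> simp [add_assoc]
    rw [e1] at hz' ⊢
    have h5 := ih z hz hb
    have h6 := (h _ hb).1 hz'
    have e2 : Q (z + ((n : ℤ), 0) + (1, 0)) - Q z - (((n + 1 : ℕ) : ℝ), (0 : ℝ)) =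
        (Q (z + ((n : ℤ), 0) + (1, 0)) - Q (z + ((n : ℤ), 0)) - (1, 0)) +
        (Q (z + ((n : ℤ), 0)) - Q z - ((n : ℝ), 0)) := by
      ext
      · simp only [Prod.fst_add, Prod.fst_sub]; push_cast; ring
      · simp only [Prod.snd_add, Prod.snd_sub]; ring
    rw [e2]
    refine le_trans (norm_add_le _ _) ?_
    push_cast
    linarith

theorem Near.lip2 {m : ℤ} {δ : ℝ} {Q : ℤ × ℤ → ℝ × ℝ} (h : Near m δ Q) (n : ℕ) :
    ∀ z : ℤ × ℤ, box m z → box m (z + (0, (n : ℤ))) →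
      ‖Q (z + (0, (n : ℤ))) - Q z - (0, (n : ℝ))‖ ≤ δ * n := by
  induction n with
  | zero =>
    intro z _ _
    have e0 : z + (0, ((0 : ℕ) : ℤ)) = z := by ext <;> simp
    rw [e0]
    simp
  | succ n ih =>
    intro z hz hz'
    have hb : box m (z + (0, (n : ℤ))) := by
      obtain ⟨h1, h2⟩ := hz
      obtain ⟨h3, h4⟩ := hz'
      simp only [Prod.fst_add, Prod.snd_add] at h3 h4
      refine ⟨?_, ?_⟩
      · simpa using h1
      · simp only [Prod.snd_add]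
        rw [abs_le] at h2 h4 ⊢
        push_cast at h4
        omega
    have e1 : z + (0, ((n + 1 : ℕ) : ℤ)) = z + (0, (n : ℤ)) + (0, 1) := by
      ext <;> simp [add_assoc]
    rw [e1] at hz' ⊢
    have h5 := ih z hz hb
    have h6 := (h _ hb).2 hz'
    have e2 : Q (z + (0, (n : ℤ)) + (0, 1)) - Q z - ((0 : ℝ), ((n + 1 : ℕ) : ℝ)) =
        (Q (z + (0, (n : ℤ)) + (0, 1)) - Q (z + (0, (n : ℤ))) - (0, 1)) +
        (Q (z + (0, (n : ℤ))) - Q z - (0, (n : ℝ))) := by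
      ext
      · simp only [Prod.fst_add, Prod.fst_sub]; ring
      · simp only [Prod.snd_add, Prod.snd_sub]; push_cast; ring
    rw [e2]
    refine le_trans (norm_add_le _ _) ?_
    push_cast
    linarith

theorem Near.lip1' {m : ℤ} {δ : ℝ} {Q : ℤ × ℤ → ℝ × ℝ} (h : Near m δ Q) (k : ℤ) (z : ℤ × ℤ)
    (hz : box m z) (hz' : box m (z + (k, 0))) :
    ‖Q (z + (k, 0)) - Q z - ((k : ℝ), 0)‖ ≤ δ * |(k : ℝ)| := by
  rcases le_total 0 k with hk | hk
  · obtain ⟨n, rfl⟩ := Int.eq_ofNat_of_zero_le hk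
    simpa using h.lip1 n z hz hz'
  · obtain ⟨n, hn⟩ := Int.eq_ofNat_of_zero_le (neg_nonneg.2 hk)
    have hk' : k = -(n : ℤ) := by omega
    subst hk'
    have e1 : z + (-(n : ℤ), 0) + ((n : ℤ), 0) = z := by ext <;> simp
    have h1 := h.lip1 n (z + (-(n : ℤ), 0)) hz' (by rw [e1]; exact hz)
    rw [e1] at h1
    have e2 : Q (z + (-(n : ℤ), 0)) - Q z - (((-(n : ℤ) : ℤ) : ℝ), (0 : ℝ)) =
        -(Q z - Q (z + (-(n : ℤ), 0)) - ((n : ℝ), 0)) := by
      ext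
      · simp only [Prod.fst_sub, Prod.fst_neg]; push_cast; ring
      · simp only [Prod.snd_sub, Prod.snd_neg]; ring
    rw [e2, norm_neg]
    simpa using h1

theorem Near.lip2' {m : ℤ} {δ : ℝ} {Q : ℤ × ℤ → ℝ × ℝ} (h : Near m δ Q) (k : ℤ) (z : ℤ × ℤ)
    (hz : box m z) (hz' : box m (z + (0, k))) :
    ‖Q (z + (0, k)) - Q z - (0, (k : ℝ))‖ ≤ δ * |(k : ℝ)| := by
  rcases le_total 0 k with hk | hk
  · obtain ⟨n, rfl⟩ := Int.eq_ofNat_of_zero_le hk
    simpa using h.lip2 n z hz hz'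
  · obtain ⟨n, hn⟩ := Int.eq_ofNat_of_zero_le (neg_nonneg.2 hk)
    have hk' : k = -(n : ℤ) := by omega
    subst hk'
    have e1 : z + (0, -(n : ℤ)) + (0, (n : ℤ)) = z := by ext <;> simp
    have h1 := h.lip2 n (z + (0, -(n : ℤ))) hz' (by rw [e1]; exact hz)
    rw [e1] at h1
    have e2 : Q (z + (0, -(n : ℤ))) - Q z - ((0 : ℝ), ((-(n : ℤ) : ℤ) : ℝ)) =
        -(Q z - Q (z + (0, -(n : ℤ))) - (0, (n : ℝ))) := by
      ext
      · simp only [Prod.fst_sub, Prod.fst_neg]; ring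
      · simp only [Prod.snd_sub, Prod.snd_neg]; push_cast; ring
    rw [e2, norm_neg]
    simpa using h1

/-- Paths of neighbours: the differences of all points. -/
theorem Near.lip {m : ℤ} {δ : ℝ} {Q : ℤ × ℤ → ℝ × ℝ} (h : Near m δ Q)
    (z u : ℤ × ℤ) (hz : box m z) (hu : box m (z + u)) :
    ‖Q (z + u) - Q z - vv u‖ ≤ δ * (|(u.1 : ℝ)| + |(u.2 : ℝ)|) := by
  have hb : box m (z + (u.1, 0)) := by
    refine ⟨?_, ?_⟩
    · simpa using hu.1
    · simpa using hz.2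
  have e1 : z + (u.1, 0) + (0, u.2) = z + u := by ext <;> simp
  have h1 := h.lip1' u.1 z hz hb
  have h2 := h.lip2' u.2 _ hb (by rw [e1]; exact hu)
  rw [e1] at h2
  have e2 : Q (z + u) - Q z - vv u = (Q (z + u) - Q (z + (u.1, 0)) - (0, (u.2 : ℝ))) +
      (Q (z + (u.1, 0)) - Q z - ((u.1 : ℝ), 0)) := by
    ext
    · simp only [vv, Prod.fst_add, Prod.fst_sub]; ring
    · simp only [vv, Prod.snd_add, Prod.snd_sub]; ring
  rw [e2]
  refine le_trans (norm_add_le _ _) ?_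
  linarith

end Pool.Agent.GridLat
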