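import Pool.Agent.GridLat.Defs

/-!
# The pigeonhole step: an almost straight row has two points seen at a tiny angle
-/

set_option autoImplicit false

namespace Pool.Agent.GridLat

/-- First coordinates of the differences along a row. -/
theorem fst_lin {T : ℕ} {δ : ℝ} (hδ : δ ≤ 1 / 100) (R : ℕ → ℝ × ℝ)
    (near : ∀ t < T, ‖R (t + 1) - R t - (1, 0)‖ ≤ δ) :
    ∀ t ≤ T, |(R t - R 0).1 - t| ≤ 1 / 100 * t := by
  intro t
  induction t with
  | zero => intro _; simp
  | succ t ih =>
    intro ht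
    have h1 := ih (by omega)
    have h2 : |(R (t + 1) - R t - (1, 0)).1| ≤ 1 / 100 :=
      (norm_fst_le (R (t + 1) - R t - (1, 0))).trans ((near t (by omega)).trans hδ)
    simp only [Prod.fst_sub] at h1 h2 ⊢
    rw [abs_le] at h1 h2 ⊢
    push_cast
    constructor <;> linarith [h1.1, h1.2, h2.1, h2.2]

theorem pigeon {T : ℕ} {δ a H : ℝ} (hT : 8 ≤ T) (hT2 : 2 ∣ T) (hδ : δ ≤ 1 / 100) (_hδ0 : 0 ≤ δ)
    (R : ℕ → ℝ × ℝ)
    (near : ∀ t < T, ‖R (t + 1) - R t - (1, 0)‖ ≤ δ)
    (hH : ∀ t ≤ T, |cr (R T - R 0) (R t - R 0)| ≤ H) (_ha : 0 ≤ a)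
    (hW : ∀ t t' : ℕ, 1 ≤ t → t < t' → t' ≤ T →
      a * ‖R t - R 0‖ * ‖R t' - R 0‖ ≤ |cr (R t - R 0) (R t' - R 0)|) :
    a ≤ 100 * H / T ^ 3 := by
  obtain ⟨n, hn⟩ := hT2
  have hH0 : 0 ≤ H := (abs_nonneg _).trans (hH 0 (Nat.zero_le _))
  have hTr : (8 : ℝ) ≤ T := by exact_mod_cast hT
  have hT0 : (0 : ℝ) < T := by linarith
  have hnr : (T : ℝ) = 2 * n := by exact_mod_cast hn
  by_contra hcon
  push Not at hcon
  have hcon' : 100 * H < a * T ^ 3 := by
    rwa [div_lt_iff₀ (by positivity)] at hcon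
  have ha0 : 0 < a := by
    by_contra h0
    push Not at h0
    have : a * (T : ℝ) ^ 3 ≤ 0 := mul_nonpos_of_nonpos_of_nonneg h0 (by positivity)
    linarith
  have hlin := fst_lin hδ R near
  have hDlin := abs_le.1 (hlin T le_rfl)
  set D : ℝ × ℝ := R T - R 0 with hD
  have hD1 : 99 / 100 * (T : ℝ) ≤ D.1 := by linarith [hDlin.1]
  have hD0 : 0 < D.1 := by linarith
  -- the positions
  set u : ℕ → ℝ × ℝ := fun t => R t - R 0 with hu
  have hu1 : ∀ t, n ≤ t → t ≤ T → 99 / 200 * (T : ℝ) ≤ (u t).1 := by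
    intro t h1 h2
    have h3 := abs_le.1 (hlin t h2)
    have h4 : (n : ℝ) ≤ t := by exact_mod_cast h1
    simp only [hu]
    linarith [h3.1]
  have hu0 : ∀ t, n ≤ t → t ≤ T → 0 < (u t).1 := fun t h1 h2 => by
    have := hu1 t h1 h2
    linarith
  set s : ℕ → ℝ := fun t => cr D (u t) / (u t).1 with hs
  set c : ℝ := 99 / 100 * a * T with hc
  have hc0 : 0 < c := by positivity
  set S : ℝ := 200 / 99 * H / T with hS
  have hS0 : 0 ≤ S := by positivity
  have hsS : ∀ t, n ≤ t → t ≤ T → |s t| ≤ S := by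
    intro t h1 h2
    have h3 := hu0 t h1 h2
    have h4 := hu1 t h1 h2
    simp only [hs, abs_div, abs_of_pos h3]
    rw [hS, div_le_div_iff₀ h3 hT0]
    have h5 : |cr D (u t)| ≤ H := hH t h2
    calc |cr D (u t)| * T ≤ H * T := mul_le_mul_of_nonneg_right h5 hT0.le
      _ = 200 / 99 * H * (99 / 200 * T) := by ring
      _ ≤ 200 / 99 * H * (u t).1 := mul_le_mul_of_nonneg_left h4 (by positivity)
  -- the values are separated
  have hsep : ∀ t t', n ≤ t → t < t' → t' ≤ T → c ≤ |s t' - s t| := by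
    intro t t' h1 h2 h3
    have p1 := hu0 t h1 (by omega)
    have p2 := hu0 t' (by omega) h3
    have hn1 : 1 ≤ n := by omega
    have h4 := hW t t' (by omega) h2 h3
    have h5 : cr (u t) (u t') * D.1 = (u t).1 * (u t').1 * (s t' - s t) := by
      have e1 : (u t).1 * (u t').1 * (s t' - s t) =
          (u t).1 * cr D (u t') - (u t').1 * cr D (u t) := by
        simp only [hs]
        field_simp
      rw [e1]
      unfold cr
      ring
    have h6 : |cr (u t) (u t')| * D.1 = (u t).1 * (u t').1 * |s t' - s t| := by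
      have := congrArg abs h5
      rw [abs_mul, abs_mul, abs_of_pos hD0, abs_of_pos (mul_pos p1 p2)] at this
      exact this
    have h7 : (u t).1 ≤ ‖R t - R 0‖ := (le_abs_self _).trans (norm_fst_le (R t - R 0))
    have h8 : (u t').1 ≤ ‖R t' - R 0‖ := (le_abs_self _).trans (norm_fst_le (R t' - R 0))
    have h9 : a * (u t).1 * (u t').1 ≤ |cr (u t) (u t')| := by
      refine le_trans ?_ h4
      refine mul_le_mul (mul_le_mul_of_nonneg_left h7 ha0.le) h8 p2.le (by positivity)
    have h10 : a * (u t).1 * (u t').1 * D.1 ≤ (u t).1 * (u t').1 * |s t' - s t| := by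
      rw [← h6]
      exact mul_le_mul_of_nonneg_right h9 hD0.le
    have h11 : a * D.1 ≤ |s t' - s t| := by
      have hpp : 0 < (u t).1 * (u t').1 := mul_pos p1 p2
      have : ((u t).1 * (u t').1) * (a * D.1) ≤ ((u t).1 * (u t').1) * |s t' - s t| := by
        calc _ = a * (u t).1 * (u t').1 * D.1 := by ring
          _ ≤ _ := h10
      exact le_of_mul_le_mul_left this hpp
    refine le_trans ?_ h11
    rw [hc]
    calc 99 / 100 * a * T = a * (99 / 100 * T) := by ring
      _ ≤ a * D.1 := mul_le_mul_of_nonneg_left hD1 ha0.le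
  -- the pigeonhole principle
  have hcount : 2 * S < n * c := by
    have e1 : 2 * S * T ^ 2 * 99 = 400 * H * T := by
      rw [hS]; field_simp; ring
    have e2 : n * c * T ^ 2 * 200 = 99 * (a * T ^ 3) * T := by
      rw [hc, hnr]; ring
    have h1 : 400 * H * T * 200 < 99 * (a * T ^ 3) * T * 99 ∨ H = 0 := by
      rcases eq_or_lt_of_le hH0 with h0 | h0
      · right; exact h0.symm
      · left
        have : 99 * 99 * (100 * H) * T < 99 * 99 * (a * T ^ 3) * T := by
          refine mul_lt_mul_of_pos_right ?_ hT0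
          linarith
        nlinarith [mul_pos h0 hT0]
    rcases h1 with h1 | h1
    · rw [← e1, ← e2] at h1
      have hT2' : (0 : ℝ) < T ^ 2 * 99 * 200 := by positivity
      have : (2 * S) * (T ^ 2 * 99 * 200) < (n * c) * (T ^ 2 * 99 * 200) := by linarith
      exact lt_of_mul_lt_mul_right this hT2'.le
    · have hSz : S = 0 := by rw [hS, h1]; simp
      have hn0 : (0 : ℝ) < n := by linarith
      rw [hSz]
      have := mul_pos hn0 hc0
      linarith
  have hmaps : ∀ t ∈ Finset.Icc n T, ⌊(s t + S) / c⌋₊ ∈ Finset.range n := by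
    intro t ht
    rw [Finset.mem_Icc] at ht
    have h1 := abs_le.1 (hsS t ht.1 ht.2)
    rw [Finset.mem_range, Nat.floor_lt (div_nonneg (by linarith [h1.1]) hc0.le),
      div_lt_iff₀ hc0]
    linarith [h1.2]
  have hcard : (Finset.range n).card < (Finset.Icc n T).card := by
    rw [Finset.card_range, Nat.card_Icc]; omega
  obtain ⟨t, ht, t', ht', hne, hEq⟩ :=
    Finset.exists_ne_map_eq_of_card_lt_of_maps_to hcard hmaps
  have hclose : ∀ t t' : ℕ, t ∈ Finset.Icc n T → t' ∈ Finset.Icc n T → t < t' →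
      ⌊(s t + S) / c⌋₊ = ⌊(s t' + S) / c⌋₊ → False := by
    intro t t' ht ht' hlt hEq
    rw [Finset.mem_Icc] at ht ht'
    have h1 := abs_le.1 (hsS t ht.1 ht.2)
    have h2 := abs_le.1 (hsS t' ht'.1 ht'.2)
    have n1 : 0 ≤ (s t + S) / c := div_nonneg (by linarith [h1.1]) hc0.le
    have n2 : 0 ≤ (s t' + S) / c := div_nonneg (by linarith [h2.1]) hc0.le
    have f1 := Nat.floor_le n1
    have f2 := Nat.lt_floor_add_one ((s t + S) / c)
    have f3 := Nat.floor_le n2
    have f4 := Nat.lt_floor_add_one ((s t' + S) / c)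
    rw [hEq] at f1 f2
    have g := hsep t t' ht.1 hlt ht'.2
    have e1 : (s t' + S) / c - (s t + S) / c = (s t' - s t) / c := by ring
    have g1 : |(s t' - s t) / c| < 1 := by
      rw [← e1, abs_lt]
      constructor <;> linarith
    rw [abs_div, abs_of_pos hc0, div_lt_one hc0] at g1
    linarith
  rcases lt_or_gt_of_ne hne with h | h
  · exact hclose t t' ht ht' h hEq
  · exact hclose t' t ht' ht h hEq.symm

end Pool.Agent.GridLat
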