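import Pool.Agent.GridLat.Defs

/-!
# The row `e₁`: from almost collinear triples to an almost straight row
-/

set_option autoImplicit false

namespace Pool.Agent.GridLat

/-- Discrete maximum principle. -/
theorem jensen_max {M : ℕ} (h : ℕ → ℝ) {e : ℝ} (he : 0 ≤ e) (h0 : h 0 = 0)
    (hT : h (2 * M) = 0)
    (hl : ∀ k, 1 ≤ k → k ≤ M → ∃ ρ : ℝ, |ρ| ≤ 51 / 100 ∧ |h k - ρ * h (2 * k)| ≤ e)
    (hr : ∀ k, 1 ≤ k → k ≤ M →
      ∃ ρ : ℝ, |ρ| ≤ 51 / 100 ∧ |h (2 * M - k) - ρ * h (2 * M - 2 * k)| ≤ e) :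
    ∀ k, k ≤ 2 * M → |h k| ≤ 100 / 49 * e := by
  obtain ⟨k₀, hk₀, hmax⟩ := Finset.exists_max_image (Finset.range (2 * M + 1)) (fun k => |h k|)
    ⟨0, by simp⟩
  have hk₀' : k₀ ≤ 2 * M := by simpa [Nat.lt_succ_iff] using hk₀
  have hm : ∀ k, k ≤ 2 * M → |h k| ≤ |h k₀| := fun k hk =>
    hmax k (by simpa [Nat.lt_succ_iff] using hk)
  have key : ∀ (x ρ y : ℝ), |ρ| ≤ 51 / 100 → |x - ρ * y| ≤ e → |y| ≤ |h k₀| →
      |x| ≤ 51 / 100 * |h k₀| + e := by
    intro x ρ y h1 h2 h3
    have h4 : |x| ≤ |x - ρ * y| + |ρ * y| := by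
      have := abs_add_le (x - ρ * y) (ρ * y)
      simpa using this
    rw [abs_mul] at h4
    have h5 : |ρ| * |y| ≤ 51 / 100 * |h k₀| := mul_le_mul h1 h3 (abs_nonneg _) (by norm_num)
    linarith
  have hfin : |h k₀| ≤ 100 / 49 * e := by
    rcases Nat.eq_zero_or_pos k₀ with h00 | h00
    · rw [h00, h0]; simpa using he
    · rcases le_or_gt k₀ M with hkM | hkM
      · obtain ⟨ρ, h1, h2⟩ := hl k₀ h00 hkM
        have := key _ _ _ h1 h2 (hm _ (by omega))
        linarith
      · rcases eq_or_lt_of_le hk₀' with hk2 | hk2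
        · rw [hk2, hT]; simpa using he
        · obtain ⟨ρ, h1, h2⟩ := hr (2 * M - k₀) (by omega) (by omega)
          have e1 : 2 * M - (2 * M - k₀) = k₀ := by omega
          rw [e1] at h2
          have := key _ _ _ h1 h2 (hm _ (by omega))
          linarith
  intro k hk
  exact (hm k hk).trans hfin

/-- One step of the comparison: `a`, `b` with small determinant, `a₁ + b₁` large. -/
theorem ratio_step {D a b : ℝ × ℝ} {B L U : ℝ} (hL : 0 < L) (hL1 : L ≤ a.1 + b.1)
    (hD : |D.1| ≤ U) (hB : |cr a b| ≤ B) :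
    |cr D a - a.1 / (a.1 + b.1) * cr D (a + b)| ≤ U * B / L := by
  have hpos : 0 < a.1 + b.1 := lt_of_lt_of_le hL hL1
  have hB0 : 0 ≤ B := (abs_nonneg _).trans hB
  have hU0 : 0 ≤ U := (abs_nonneg _).trans hD
  have e1 : cr D a - a.1 / (a.1 + b.1) * cr D (a + b) = -(D.1 * cr a b) / (a.1 + b.1) := by
    unfold cr
    simp only [Prod.fst_add, Prod.snd_add]
    field_simp
    ring
  rw [e1, abs_div, abs_neg, abs_mul, abs_of_pos hpos]
  have h1 : |D.1| * |cr a b| ≤ U * B := mul_le_mul hD hB (abs_nonneg _) hU0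
  calc |D.1| * |cr a b| / (a.1 + b.1) ≤ U * B / (a.1 + b.1) := by gcongr
    _ ≤ U * B / L := by gcongr

/-- First coordinates of differences along the row. -/
theorem fst_diff {R : ℕ → ℝ × ℝ} {T : ℕ}
    (hx : ∀ t, t < T → |(R (t + 1)).1 - (R t).1 - 1| ≤ 1 / 100) :
    ∀ j s, s + j ≤ T → |(R (s + j)).1 - (R s).1 - j| ≤ j / 100 := by
  intro j
  induction j with
  | zero => intro s _; simp
  | succ j ih =>
    intro s hs
    have h1 := ih s (by omega)
    have h2 := hx (s + j) (by omega)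
    have e1 : (R (s + (j + 1))).1 - (R s).1 - ((j + 1 : ℕ) : ℝ)
        = ((R (s + j)).1 - (R s).1 - j) + ((R (s + j + 1)).1 - (R (s + j)).1 - 1) := by
      push_cast
      rw [show s + (j + 1) = s + j + 1 by ring]
      ring
    rw [e1]
    refine (abs_add_le _ _).trans ?_
    push_cast
    linarith

/-- **Row theorem.** If equally spaced triples (with step `4 N k`) of the row are almost
collinear, with error `B k² / M`, then the whole row is close to its chord. -/
theorem row_straight {N M : ℕ} {δ B E : ℝ} (hN : 1 ≤ N) (hM : 1 ≤ M) (hδ : δ ≤ 1 / 100)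
    (_hδ0 : 0 ≤ δ) (R : ℕ → ℝ × ℝ)
    (near : ∀ t < 8 * M * N, ‖R (t + 1) - R t - (1, 0)‖ ≤ δ)
    (tri : ∀ k c : ℕ, 1 ≤ k → k ≤ M → 4 * N * k ≤ c → c + 4 * N * k ≤ 8 * M * N → 4 * N ∣ c →
      |cr (R c - R (c - 4 * N * k)) (R (c + 4 * N * k) - R c)| ≤ B * k ^ 2 / M)
    (step : ∀ s t : ℕ, s ≤ t → t ≤ 8 * M * N → t - s ≤ 4 * N →
      |cr (R (8 * M * N) - R 0) (R t - R s)| ≤ E) :
    ∀ t ≤ 8 * M * N, |cr (R (8 * M * N) - R 0) (R t - R 0)| ≤ 3 * B * M + E := by
  obtain ⟨T, hT⟩ : ∃ T, T = 8 * M * N := ⟨_, rfl⟩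
  rw [← hT] at near tri step ⊢
  have hNr : (1 : ℝ) ≤ N := by exact_mod_cast hN
  have hMr : (1 : ℝ) ≤ M := by exact_mod_cast hM
  have hx : ∀ t, t < T → |(R (t + 1)).1 - (R t).1 - 1| ≤ 1 / 100 := by
    intro t ht
    have h1 := (norm_fst_le (R (t + 1) - R t - (1, 0))).trans ((near t ht).trans hδ)
    simpa using h1
  set D : ℝ × ℝ := R T - R 0 with hD
  set S : ℕ → ℝ × ℝ := fun k => R (4 * N * k) with hS
  have hST : S (2 * M) = R T := by
    simp only [hS]
    congr 1
    rw [hT]; ring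
  have hS0 : S 0 = R 0 := by simp [hS]
  have hle : ∀ k, k ≤ 2 * M → 4 * N * k ≤ T := by
    intro k hk
    rw [hT]
    calc 4 * N * k ≤ 4 * N * (2 * M) := Nat.mul_le_mul_left _ hk
      _ = 8 * M * N := by ring
  have hB : 0 ≤ B := by
    have h1 := tri 1 (4 * N) le_rfl hM (by omega) (by
      have := hle 2 (by omega)
      omega) (dvd_refl _)
    have h2 : 0 ≤ B * ((1 : ℕ) : ℝ) ^ 2 / M := (abs_nonneg _).trans h1
    have h3 : 0 ≤ B / M := by simpa using h2
    rcases le_or_gt 0 B with h | h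
    · exact h
    · have : B / M < 0 := div_neg_of_neg_of_pos h (by linarith)
      linarith
  -- first coordinates of differences of the points S
  have hfst : ∀ j k, k + j ≤ 2 * M →
      |(S (k + j)).1 - (S k).1 - 4 * N * j| ≤ 4 * N * j / 100 := by
    intro j k hk
    have h1 := fst_diff (R := R) (T := T) hx (4 * N * j) (4 * N * k) (by
      have := hle (k + j) hk
      calc 4 * N * k + 4 * N * j = 4 * N * (k + j) := by ring
        _ ≤ T := this)
    have e1 : 4 * N * k + 4 * N * j = 4 * N * (k + j) := by ring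
    rw [e1] at h1
    push_cast at h1
    simpa [hS] using h1
  have hD1 : |D.1| ≤ 101 / 100 * (8 * M * N) := by
    have h1 := hfst (2 * M) 0 (by omega)
    rw [zero_add, hST, hS0] at h1
    push_cast at h1
    have h2 := abs_le.1 h1
    have : D.1 = (R T).1 - (R 0).1 := by simp [hD]
    rw [this, abs_le]
    constructor <;> nlinarith [mul_nonneg (Nat.cast_nonneg (α := ℝ) M) (Nat.cast_nonneg (α := ℝ) N)]
  set h : ℕ → ℝ := fun k => cr D (S k - S 0) with hh
  have h0 : h 0 = 0 := by simp [hh, cr]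
  have hTT : h (2 * M) = 0 := by
    simp only [hh, hST, hS0]
    exact cr_self _
  have hratio : ∀ x y L : ℝ, 0 < L → |x - L| ≤ L / 100 → |y - L| ≤ L / 100 →
      |x / (x + y)| ≤ 51 / 100 := by
    intro x y L hL h1 h2
    have h1' := abs_le.1 h1
    have h2' := abs_le.1 h2
    have hpos : 0 < x + y := by linarith
    have hx0 : 0 ≤ x := by linarith
    rw [abs_of_nonneg (by positivity), div_le_iff₀ hpos]
    linarith
  have hfinal : ∀ k : ℕ, 1 ≤ k → k ≤ M →
      101 / 100 * (8 * (M : ℝ) * N) * (B * (k : ℝ) ^ 2 / M) / (99 / 100 * (8 * (N : ℝ) * k))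
        ≤ 101 / 99 * B * M := by
    intro k hk1 hkM
    have hkr : (1 : ℝ) ≤ k := by exact_mod_cast hk1
    have hkMr : (k : ℝ) ≤ M := by exact_mod_cast hkM
    have e1 : 101 / 100 * (8 * (M : ℝ) * N) * (B * (k : ℝ) ^ 2 / M)
        / (99 / 100 * (8 * (N : ℝ) * k)) = 101 / 99 * B * k := by
      field_simp
    rw [e1]
    have : 0 ≤ 101 / 99 * B := by positivity
    exact mul_le_mul_of_nonneg_left hkMr this
  have hjen := jensen_max (M := M) h (e := 101 / 99 * B * M) (by positivity) h0 hTT ?_ ?_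
  · intro t ht
    -- nearest lower S
    set k : ℕ := t / (4 * N) with hk
    have hk1 : 4 * N * k ≤ t := Nat.mul_div_le t (4 * N)
    have hk2 : t < 4 * N * k + 4 * N := by
      have := Nat.lt_mul_div_succ t (show 0 < 4 * N by omega)
      calc t < 4 * N * (t / (4 * N) + 1) := this
        _ = 4 * N * k + 4 * N := by rw [hk]; ring
    have hk3 : k ≤ 2 * M := by
      by_contra hcon
      have : 2 * M + 1 ≤ k := by omega
      have h5 : 4 * N * (2 * M + 1) ≤ 4 * N * k := Nat.mul_le_mul_left _ this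
      have h6 : 4 * N * (2 * M + 1) = 8 * M * N + 4 * N := by ring
      omega
    have h1 : |cr D (S k - S 0)| ≤ 100 / 49 * (101 / 99 * B * M) := hjen k hk3
    have h2 := step (4 * N * k) t hk1 ht (by omega)
    have e2 : R t - R 0 = (S k - S 0) + (R t - R (4 * N * k)) := by
      rw [hS0]; simp only [hS]; abel
    rw [e2, cr_add_right]
    refine (abs_add_le _ _).trans ?_
    have h3 : 0 ≤ B * M := by positivity
    linarith
  · intro k hk1 hkM
    have hkr : (1 : ℝ) ≤ k := by exact_mod_cast hk1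
    set a : ℝ × ℝ := S k - S 0 with ha
    set b : ℝ × ℝ := S (2 * k) - S k with hb
    have ha1 : |a.1 - 4 * N * k| ≤ 4 * N * k / 100 := by
      have := hfst k 0 (by omega)
      simpa [ha] using this
    have hb1 : |b.1 - 4 * N * k| ≤ 4 * N * k / 100 := by
      have := hfst k k (by omega)
      rw [← two_mul] at this
      simpa [hb] using this
    have hLk : (0 : ℝ) < 4 * N * k := by positivity
    refine ⟨a.1 / (a.1 + b.1), hratio _ _ _ hLk ha1 hb1, ?_⟩
    have ha2 := abs_le.1 ha1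
    have hb2 := abs_le.1 hb1
    have hab : a + b = S (2 * k) - S 0 := by rw [ha, hb]; abel
    have hcr : |cr a b| ≤ B * k ^ 2 / M := by
      have h1 := tri k (4 * N * k) hk1 hkM le_rfl (by
        have := hle (2 * k) (by omega)
        calc 4 * N * k + 4 * N * k = 4 * N * (2 * k) := by ring
          _ ≤ T := this) (Nat.dvd_mul_right _ _)
      have e1 : 4 * N * k - 4 * N * k = 0 := by omega
      have e2 : 4 * N * k + 4 * N * k = 4 * N * (2 * k) := by ring
      rw [e1, e2] at h1
      simpa [ha, hb, hS] using h1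
    have h1 := ratio_step (D := D) (a := a) (b := b) (B := B * k ^ 2 / M)
      (L := 99 / 100 * (8 * N * k)) (U := 101 / 100 * (8 * M * N)) (by positivity)
      (by linarith) hD1 hcr
    have e3 : h k - a.1 / (a.1 + b.1) * h (2 * k)
        = cr D a - a.1 / (a.1 + b.1) * cr D (a + b) := by
      simp only [hh, hab]
      rfl
    rw [e3]
    exact h1.trans (hfinal k hk1 hkM)
  · intro k hk1 hkM
    have hkr : (1 : ℝ) ≤ k := by exact_mod_cast hk1
    set a : ℝ × ℝ := S (2 * M) - S (2 * M - k) with ha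
    set b : ℝ × ℝ := S (2 * M - k) - S (2 * M - 2 * k) with hb
    have ha1 : |a.1 - 4 * N * k| ≤ 4 * N * k / 100 := by
      have := hfst k (2 * M - k) (by omega)
      rw [show 2 * M - k + k = 2 * M by omega] at this
      simpa [ha] using this
    have hb1 : |b.1 - 4 * N * k| ≤ 4 * N * k / 100 := by
      have := hfst k (2 * M - 2 * k) (by omega)
      rw [show 2 * M - 2 * k + k = 2 * M - k by omega] at this
      simpa [hb] using this
    have hLk : (0 : ℝ) < 4 * N * k := by positivity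
    refine ⟨a.1 / (a.1 + b.1), hratio _ _ _ hLk ha1 hb1, ?_⟩
    have ha2 := abs_le.1 ha1
    have hb2 := abs_le.1 hb1
    have hab : a + b = S (2 * M) - S (2 * M - 2 * k) := by rw [ha, hb]; abel
    have hcr : |cr a b| ≤ B * k ^ 2 / M := by
      have h1 := tri k (4 * N * (2 * M - k)) hk1 hkM (by
        apply Nat.mul_le_mul_left
        omega) (by
        have := hle (2 * M) le_rfl
        calc 4 * N * (2 * M - k) + 4 * N * k = 4 * N * (2 * M - k + k) := by ring
          _ = 4 * N * (2 * M) := by rw [show 2 * M - k + k = 2 * M by omega]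
          _ ≤ T := this) (Nat.dvd_mul_right _ _)
      have e1 : 4 * N * (2 * M - k) - 4 * N * k = 4 * N * (2 * M - 2 * k) := by
        rw [← Nat.mul_sub]
        congr 1
        omega
      have e2 : 4 * N * (2 * M - k) + 4 * N * k = 4 * N * (2 * M) := by
        rw [← Nat.mul_add]
        congr 1
        omega
      rw [e1, e2] at h1
      rw [cr_swap, abs_neg]
      simpa [ha, hb, hS] using h1
    have h1 := ratio_step (D := D) (a := a) (b := b) (B := B * k ^ 2 / M)
      (L := 99 / 100 * (8 * N * k)) (U := 101 / 100 * (8 * M * N)) (by positivity)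
      (by linarith) hD1 hcr
    have hDD : cr D (S (2 * M) - S 0) = 0 := hTT
    have e4 : h (2 * M - k) = - cr D a := by
      have : S (2 * M - k) - S 0 = (S (2 * M) - S 0) - a := by rw [ha]; abel
      simp only [hh]
      rw [this, cr_sub_right, hDD]
      ring
    have e5 : h (2 * M - 2 * k) = - cr D (a + b) := by
      have : S (2 * M - 2 * k) - S 0 = (S (2 * M) - S 0) - (a + b) := by rw [hab]; abel
      simp only [hh]
      rw [this, cr_sub_right, hDD]
      ring
    have e3 : h (2 * M - k) - a.1 / (a.1 + b.1) * h (2 * M - 2 * k)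
        = -(cr D a - a.1 / (a.1 + b.1) * cr D (a + b)) := by
      rw [e4, e5]; ring
    rw [e3, abs_neg]
    exact h1.trans (hfinal k hk1 hkM)

end Pool.Agent.GridLat
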