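import Pool.Agent.GridLat.Triple
import Pool.Agent.GridLat.Row
import Pool.Agent.GridLat.Pigeon

/-!
# A grid with almost constant neighbour differences has a tiny angle
-/

set_option autoImplicit false

namespace Pool.Agent.GridLat

theorem main_far {C₁ : ℝ} (hC₁ : 1 ≤ C₁) {m : ℤ} {δ a : ℝ} {Q : ℤ × ℤ → ℝ × ℝ} {N M : ℕ}
    (hn : Near m δ Q) (hw : Wide m a Q) (hδ : 0 ≤ δ) (ha : 0 ≤ a) (hN : 1 ≤ N) (hNM : N ≤ M)
    (hδ2 : 1000 * δ ≤ 1) (hm : 420 * (M * N : ℤ) ≤ m) (hB : 80 * δ < a * (16 * M : ℝ) ^ 2)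
    (tri : ∀ k c : ℕ, 1 ≤ k → k ≤ M → 4 * N * k ≤ c → c + 4 * N * k ≤ 8 * M * N → 4 * N ∣ c →
      |cr (Q ((c : ℤ), 0) - Q (((c - 4 * N * k : ℕ) : ℤ), 0))
        (Q (((c + 4 * N * k : ℕ) : ℤ), 0) - Q ((c : ℤ), 0))| ≤ C₁ * k ^ 2 / M) :
    a ≤ 2 * C₁ / (N * (M * N) ^ 2) := by
  have hM : 1 ≤ M := hN.trans hNM
  have hMN : 1 ≤ M * N := Nat.mul_pos hM hN
  set R : ℕ → ℝ × ℝ := fun t => Q ((t : ℤ), 0) with hR
  set T : ℕ := 8 * M * N with hT
  have hTe : T = 8 * (M * N) := by rw [hT, mul_assoc]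
  have hbox : ∀ i k : ℤ, 0 ≤ i → i ≤ 400 * (M * N : ℤ) → |k| ≤ 400 * (M * N : ℤ) →
      box m (i, k) := by
    intro i k h1 h2 h3
    refine ⟨?_, ?_⟩
    · show |i| ≤ m
      rw [abs_of_nonneg h1]; linarith
    · show |k| ≤ m
      linarith
  have hMNz : (1 : ℤ) ≤ (M * N : ℤ) := by exact_mod_cast hMN
  have near : ∀ t < T, ‖R (t + 1) - R t - (1, 0)‖ ≤ δ := by
    intro t ht
    have hb1 : box m ((t : ℤ), 0) := hbox _ _ (by omega) (by
      have : (t : ℤ) ≤ 8 * (M * N : ℤ) := by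
        have : t ≤ 8 * (M * N) := by omega
        exact_mod_cast this
      linarith) (by simp; linarith)
    have e1 : ((t : ℤ), (0 : ℤ)) + (1, 0) = (((t + 1 : ℕ) : ℤ), 0) := by
      ext <;> simp
    have hb2 : box m (((t + 1 : ℕ) : ℤ), 0) := hbox _ _ (by omega) (by
      have : ((t + 1 : ℕ) : ℤ) ≤ 8 * (M * N : ℤ) := by
        have : t + 1 ≤ 8 * (M * N) := by omega
        exact_mod_cast this
      linarith) (by simp; linarith)
    have h1 := (hn _ hb1).1 (by rw [e1]; exact hb2)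
    rw [e1] at h1
    exact h1
  have hMr : (1 : ℝ) ≤ M := by exact_mod_cast hM
  have hNr : (1 : ℝ) ≤ N := by exact_mod_cast hN
  have hNMr : (N : ℝ) ≤ M := by exact_mod_cast hNM
  have hMNr : (1 : ℝ) ≤ (M : ℝ) * N := by nlinarith
  -- the steps
  set J : ℕ := 16 * (M * N) with hJdef
  have hJ : 16 ≤ J := by omega
  have hJr : (J : ℝ) = 16 * ((M : ℝ) * N) := by rw [hJdef]; push_cast; ring
  have hδa : 80 * δ < a * (J : ℝ) ^ 2 := by
    refine lt_of_lt_of_le hB ?_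
    rw [hJr]
    refine mul_le_mul_of_nonneg_left ?_ ha
    have : (16 : ℝ) * M ≤ 16 * (M * N) := by nlinarith
    have h0 : (0 : ℝ) ≤ 16 * M := by positivity
    exact pow_le_pow_left₀ h0 this 2
  have hboxE : ∀ i k : ℤ, 0 ≤ i → i ≤ (T : ℤ) + 3 * J → 8 * |k| ≤ (J : ℤ) + 8 →
      box m ((0, 0) + i • ((1, 0) : ℤ × ℤ) + k • ((0, 1) : ℤ × ℤ)) := by
    intro i k h1 h2 h3
    have e1 : (0, 0) + i • ((1, 0) : ℤ × ℤ) + k • ((0, 1) : ℤ × ℤ) = (i, k) := by
      ext <;> simp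
    rw [e1]
    have hTz : (T : ℤ) = 8 * (M * N : ℤ) := by rw [hTe]; push_cast; ring
    have hJz : (J : ℤ) = 16 * (M * N : ℤ) := by rw [hJdef]; push_cast; ring
    rw [hTz, hJz] at h2
    rw [hJz] at h3
    exact hbox i k h1 (by linarith) (by linarith)
  have edge : ∀ i l : ℕ, i < T → l < T →
      |cr (ed Q (0, 0) (1, 0) i) (ed Q (0, 0) (1, 0) l)| ≤ 3 / J := by
    have key : ∀ i l : ℕ, i ≤ l → l < T →
        |cr (ed Q (0, 0) (1, 0) i) (ed Q (0, 0) (1, 0) l)| ≤ 3 / J := by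
      intro i l h1 h2
      exact edS hn hw (v := (1, 0)) (w := (0, 1)) (ν := 1) le_rfl (by simp) (by simp) (by simp)
        (by simp) (by simp) hδ (by simpa using hδ2) hJ hδa (0, 0) T hboxE i l h1 (by omega)
        (by omega)
    intro i l h1 h2
    rcases le_total i l with h3 | h3
    · exact key i l h3 h2
    · rw [cr_swap, abs_neg]
      exact key l i h3 h1
  have hRx : ∀ s : ℕ, Q ((0, 0) + (s : ℤ) • ((1, 0) : ℤ × ℤ)) = R s := by
    intro s
    have e1 : (0, 0) + (s : ℤ) • ((1, 0) : ℤ × ℤ) = ((s : ℤ), 0) := by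
      ext <;> simp
    rw [e1]
  have sumR : ∀ s n : ℕ, ∑ i ∈ Finset.range n, ed Q (0, 0) (1, 0) (s + i) = R (s + n) - R s := by
    intro s n
    rw [sum_ed]
    have e2 : ((s : ℤ) + n) = ((s + n : ℕ) : ℤ) := by push_cast; ring
    rw [e2, hRx, hRx]
  have step : ∀ s t : ℕ, s ≤ t → t ≤ 8 * M * N → t - s ≤ 4 * N →
      |cr (R (8 * M * N) - R 0) (R t - R s)| ≤ 6 * N := by
    intro s t hst ht hts
    have h1 := sumR 0 T
    simp only [zero_add] at h1
    have h2 := sumR s (t - s)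
    have e3 : s + (t - s) = t := by omega
    rw [e3] at h2
    rw [← hT, ← h1, ← h2]
    refine le_trans (abs_cr_sum_le _ _ _ _ (3 / (J : ℝ)) (fun i hi j hj => ?_)) ?_
    · rw [Finset.mem_range] at hi hj
      exact edge _ _ hi (by omega)
    · rw [Finset.card_range, Finset.card_range]
      have h3 : ((t - s : ℕ) : ℝ) ≤ 4 * N := by exact_mod_cast hts
      have h4 : (T : ℝ) = 8 * ((M : ℝ) * N) := by rw [hTe]; push_cast; ring
      rw [h4, hJr]
      have h5 : (0 : ℝ) < (M : ℝ) * N := by positivity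
      calc 8 * ((M : ℝ) * N) * (((t - s : ℕ) : ℝ) * (3 / (16 * (M * N))))
          ≤ 8 * ((M : ℝ) * N) * ((4 * N) * (3 / (16 * (M * N)))) := by gcongr
        _ = 6 * N := by field_simp; norm_num
  have hδ100 : δ ≤ 1 / 100 := by linarith
  have straight := row_straight (N := N) (M := M) (δ := δ) (B := C₁) (E := 6 * N) hN hM hδ100 hδ R
    near tri step
  have hH : ∀ t ≤ T, |cr (R T - R 0) (R t - R 0)| ≤ 3 * C₁ * M + 6 * N := straight
  have fin := pigeon (T := T) (δ := δ) (a := a) (H := 3 * C₁ * M + 6 * N) (by omega)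
    ⟨4 * (M * N), by omega⟩ hδ100 hδ R near hH ha (by
      intro t t' h1 h2 h3
      have hb : ∀ s : ℕ, s ≤ T → box m ((s : ℤ), 0) := by
        intro s hs
        refine hbox _ _ (by omega) ?_ (by simp; linarith)
        have : (s : ℤ) ≤ 8 * (M * N : ℤ) := by
          have : s ≤ 8 * (M * N) := by omega
          exact_mod_cast this
        linarith
      have h4 := hw ((0 : ℕ), 0) ((t : ℤ), 0) ((t' : ℤ), 0) (hb 0 (by omega)) (hb t (by omega))
        (hb t' h3) (by intro he; rw [Prod.mk.injEq] at he; have := he.1; omega)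
        (by intro he; rw [Prod.mk.injEq] at he; have := he.1; omega)
        (by intro he; rw [Prod.mk.injEq] at he; have := he.1; omega)
      exact h4)
  refine le_trans fin ?_
  have h4 : (T : ℝ) = 8 * ((M : ℝ) * N) := by rw [hTe]; push_cast; ring
  rw [h4]
  have hM0 : (0 : ℝ) < M := by linarith
  have hN0 : (0 : ℝ) < N := by linarith
  rw [div_le_div_iff₀ (by positivity) (by positivity)]
  have h5 : 100 * (3 * C₁ * M + 6 * N) ≤ 1024 * C₁ * M := by nlinarith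
  have h6 : (0 : ℝ) ≤ N * (M * N) ^ 2 := by positivity
  calc 100 * (3 * C₁ * M + 6 * N) * (N * (M * N) ^ 2) ≤
      1024 * C₁ * M * (N * (M * N) ^ 2) := mul_le_mul_of_nonneg_right h5 h6
    _ = 2 * C₁ * (8 * (M * N)) ^ 3 := by ring

theorem main : ∃ C : ℝ, 1 ≤ C ∧ ∀ (m : ℤ) (δ a : ℝ) (Q : ℤ × ℤ → ℝ × ℝ) (N M : ℕ),
    Near m δ Q → Wide m a Q → 0 ≤ δ → 0 ≤ a → 1 ≤ N → N ≤ M → C * δ * N ^ 3 ≤ 1 →
    420 * (M * N : ℤ) ≤ m → a ≤ C / (N * (M * N) ^ 2) := by
  obtain ⟨C₁, hC₁, htri⟩ := row_triple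
  refine ⟨1000 * C₁, by linarith, ?_⟩
  intro m δ a Q N M hn hw hδ ha hN hNM hδN hm
  have hM : 1 ≤ M := hN.trans hNM
  have hMr : (1 : ℝ) ≤ M := by exact_mod_cast hM
  have hNr : (1 : ℝ) ≤ N := by exact_mod_cast hN
  have hM0 : (0 : ℝ) < M := by linarith
  have hN0 : (0 : ℝ) < N := by linarith
  have hN1 : (1 : ℝ) ≤ (N : ℝ) ^ 3 := one_le_pow₀ hNr
  have hN23 : (N : ℝ) ^ 2 ≤ (N : ℝ) ^ 3 := pow_le_pow_right₀ hNr (by norm_num)
  have hCδ : 0 ≤ C₁ * δ := by positivity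
  rcases le_or_gt (a * (16 * M : ℝ) ^ 2) (80 * δ) with hA | hB
  · rw [le_div_iff₀ (by positivity)]
    have h1 : a * (N * (M * N) ^ 2) * 256 = a * (16 * M : ℝ) ^ 2 * N ^ 3 := by ring
    have h2 : a * (16 * M : ℝ) ^ 2 * N ^ 3 ≤ 80 * δ * N ^ 3 := by gcongr
    have h3 : δ * (N : ℝ) ^ 3 ≤ C₁ * δ * N ^ 3 := by
      have : δ ≤ C₁ * δ := by nlinarith
      gcongr
    nlinarith
  · have hδ2 : 1000 * δ ≤ 1 := by
      have h1 : δ ≤ C₁ * δ := by nlinarith
      have h2 : C₁ * δ ≤ C₁ * δ * N ^ 3 := by nlinarith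
      nlinarith
    have h := main_far hC₁ hn hw hδ ha hN hNM hδ2 hm hB (by
      intro k c hk1 hk2 hc1 hc2 _
      have hcz : (c : ℤ) ≤ 8 * (M * N : ℤ) := by
        have : c ≤ 8 * (M * N) := by
          have : 8 * M * N = 8 * (M * N) := by ring
          omega
        exact_mod_cast this
      have hMNz : (0 : ℤ) ≤ (M * N : ℤ) := by positivity
      have h1 := htri m δ a Q N M k ((c : ℤ), 0) hn hw hδ hN hk1 hk2 (by
          have : C₁ * δ * (N : ℝ) ^ 2 ≤ C₁ * δ * N ^ 3 := by gcongr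
          have h5 : C₁ * δ * (N : ℝ) ^ 3 ≤ 1000 * C₁ * δ * N ^ 3 := by
            have : 0 ≤ C₁ * δ * (N : ℝ) ^ 3 := by positivity
            nlinarith
          linarith) hB
        (by
          show |(c : ℤ)| + 410 * M * N ≤ m
          rw [abs_of_nonneg (by positivity)]
          have : (410 : ℤ) * M * N = 410 * (M * N) := by ring
          linarith)
        (by
          show |(0 : ℤ)| + 410 * M * N ≤ m
          rw [abs_zero]
          have : (410 : ℤ) * M * N = 410 * (M * N) := by ring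
          linarith)
      have e1 : ((c : ℤ), (0 : ℤ)) - ((4 * N * k : ℤ), 0) = (((c - 4 * N * k : ℕ) : ℤ), 0) := by
        ext
        · show (c : ℤ) - 4 * N * k = ((c - 4 * N * k : ℕ) : ℤ)
          push_cast [Nat.cast_sub hc1]
          ring
        · simp
      have e2 : ((c : ℤ), (0 : ℤ)) + ((4 * N * k : ℤ), 0) = (((c + 4 * N * k : ℕ) : ℤ), 0) := by
        ext
        · show (c : ℤ) + 4 * N * k = ((c + 4 * N * k : ℕ) : ℤ)
          push_cast
          ring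
        · simp
      rw [e1, e2] at h1
      exact h1)
    refine le_trans h ?_
    gcongr
    linarith

end Pool.Agent.GridLat
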