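import Pool.Agent.GridLat.Plane75
import Pool.Agent.GridLat.Main

/-!
# Bent grids in the unit disk: the choice of the scales
-/

set_option autoImplicit false

namespace Pool.Agent.GridLat

open Pool.Agent.Grain (Pl)

/-- the choice of `N` and `M` -/
theorem main_choice : ∃ C : ℝ, 1 ≤ C ∧ ∀ (m : ℤ) (δ a : ℝ) (Q : ℤ × ℤ → ℝ × ℝ),
    Near m δ Q → Wide m a Q → 0 < δ → 0 ≤ a → C * δ ≤ 1 → C ≤ δ * m →
    a ≤ C * δ ^ (1 / 3 : ℝ) / (m : ℝ) ^ 2 := by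
  obtain ⟨C₀, hC₀, h⟩ := main
  have hC₀0 : 0 < C₀ := by linarith
  refine ⟨2 * 840 ^ 2 * C₀ ^ 2, by nlinarith, ?_⟩
  intro m δ a Q hN hW hδ ha hCδ hCm
  have hbig : C₀ ≤ 2 * 840 ^ 2 * C₀ ^ 2 := by nlinarith
  have hC₀δ : C₀ * δ ≤ 1 := le_trans (by gcongr) hCδ
  set s : ℝ := (C₀ * δ) ^ (1 / 3 : ℝ) with hs
  have hcd : 0 < C₀ * δ := by positivity
  have hs0 : 0 < s := Real.rpow_pos_of_pos hcd _
  have hs3 : s ^ 3 = C₀ * δ := by
    rw [hs, ← Real.rpow_natCast, ← Real.rpow_mul hcd.le]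
    norm_num
  have hs1 : s ≤ 1 := by
    rw [hs]; exact Real.rpow_le_one hcd.le hC₀δ (by norm_num)
  set N : ℕ := ⌊1 / s⌋₊ with hNdef
  have h1s : 1 ≤ 1 / s := by rw [le_div_iff₀ hs0]; linarith
  have hN1 : 1 ≤ N := by
    rw [hNdef]; exact Nat.le_floor (by simpa using h1s)
  have hNr1 : (1 : ℝ) ≤ N := by exact_mod_cast hN1
  have hNle : (N : ℝ) ≤ 1 / s := Nat.floor_le (by positivity)
  have hNge : 1 / s < (N : ℝ) + 1 := Nat.lt_floor_add_one _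
  have hNs : (N : ℝ) * s ≤ 1 := by
    rw [le_div_iff₀ hs0] at hNle; exact hNle
  have hNs2 : 1 ≤ 2 * N * s := by
    rw [div_lt_iff₀ hs0] at hNge
    nlinarith
  -- `m ≥ 420 N ^ 2`
  have hδs : δ ≤ s ^ 3 := by
    rw [hs3]; nlinarith
  have hmr : 2 * 840 ^ 2 * C₀ ^ 2 ≤ δ * m := hCm
  have hm0 : (0 : ℝ) < m := by
    by_contra hneg
    push Not at hneg
    have : δ * m ≤ 0 := mul_nonpos_of_nonneg_of_nonpos hδ.le hneg
    nlinarith
  have hm420 : 420 * (N : ℝ) ^ 2 ≤ m := by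
    have h5 : 420 ≤ s ^ 3 * m := by
      calc (420 : ℝ) ≤ 2 * 840 ^ 2 * C₀ ^ 2 := by nlinarith
        _ ≤ δ * m := hmr
        _ ≤ s ^ 3 * m := by gcongr
    have h6 : s ^ 3 * m ≤ s ^ 2 * m := by
      have : s ^ 3 ≤ s ^ 2 := by nlinarith [sq_nonneg s]
      gcongr
    have h7 : (N : ℝ) ^ 2 * s ^ 2 ≤ 1 := by
      rw [← mul_pow]
      exact pow_le_one₀ (by positivity) hNs
    have hs2 : 0 < s ^ 2 := by positivity
    refine le_of_mul_le_mul_right ?_ hs2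
    nlinarith
  set M : ℕ := ⌊(m : ℝ) / (420 * N)⌋₊ with hMdef
  have h420N : (0 : ℝ) < 420 * N := by positivity
  have hMN : N ≤ M := by
    rw [hMdef]
    apply Nat.le_floor
    rw [le_div_iff₀ h420N]
    nlinarith
  have hMle : (M : ℝ) ≤ m / (420 * N) := Nat.floor_le (by positivity)
  have hMge : (m : ℝ) / (420 * N) < (M : ℝ) + 1 := Nat.lt_floor_add_one _
  have hMr : (N : ℝ) ≤ M := by exact_mod_cast hMN
  have hM2 : (m : ℝ) ≤ 840 * (M * N) := by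
    rw [div_lt_iff₀ h420N] at hMge
    nlinarith
  have hMNm : 420 * (M * N : ℤ) ≤ m := by
    have : 420 * (M * N : ℝ) ≤ m := by
      rw [le_div_iff₀ h420N] at hMle
      linarith
    exact_mod_cast this
  have hδN : C₀ * δ * N ^ 3 ≤ 1 := by
    rw [← hs3, ← mul_pow, mul_comm]
    exact pow_le_one₀ (by positivity) hNs
  have hfin := h m δ a Q N M hN hW hδ.le ha hN1 hMN hδN hMNm
  refine hfin.trans ?_
  have hMN0 : (0 : ℝ) < M * N := by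
    have : (0 : ℝ) < M := by linarith
    positivity
  have hsδ : s ≤ C₀ * δ ^ (1 / 3 : ℝ) := by
    rw [hs, Real.mul_rpow hC₀0.le hδ.le]
    gcongr
    calc C₀ ^ (1 / 3 : ℝ) ≤ C₀ ^ (1 : ℝ) := Real.rpow_le_rpow_of_exponent_le hC₀ (by norm_num)
      _ = C₀ := Real.rpow_one _
  rw [div_le_div_iff₀ (by positivity) (by positivity)]
  have h8 : (m : ℝ) ^ 2 ≤ (840 * (M * N)) ^ 2 := pow_le_pow_left₀ hm0.le hM2 2
  calc C₀ * (m : ℝ) ^ 2 ≤ C₀ * (840 * (M * N)) ^ 2 := by gcongr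
    _ = C₀ * 840 ^ 2 * (M * N : ℝ) ^ 2 * 1 := by ring
    _ ≤ C₀ * 840 ^ 2 * (M * N : ℝ) ^ 2 * (2 * N * s) := by gcongr
    _ ≤ C₀ * 840 ^ 2 * (M * N : ℝ) ^ 2 * (2 * N * (C₀ * δ ^ (1 / 3 : ℝ))) := by gcongr
    _ = 2 * 840 ^ 2 * C₀ ^ 2 * δ ^ (1 / 3 : ℝ) * (N * (M * N : ℝ) ^ 2) := by ring

/-- **Bent grids.**  The product of minimal distance and minimal angle is small. -/
theorem bent_bound (κ K r : ℝ) (hκ : 0 < κ) (hK : 0 < K) (hr : 0 < r) :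
    ∃ C : ℝ, 0 < C ∧ ∀ ε : ℝ, 0 < ε → C * ε ≤ 1 → ∀ n : ℕ, C ≤ ε ^ 2 * n →
      ∀ X : Fin n → Pl, Function.Injective X → HasBentGrid X κ K r ε →
        ∀ D A : ℝ, 0 ≤ D → 0 ≤ A →
          (∀ i j : Fin n, i ≠ j → D ≤ dist (X i) (X j)) →
          (∀ i j k : Fin n, i ≠ j → j ≠ k → i ≠ k →
              A ≤ EuclideanGeometry.angle (X i) (X j) (X k)) →
          A ≤ C * ε ^ (1 / 3 : ℝ) / n ∧
            D * A ≤ C * ε ^ (1 / 3 : ℝ) * (n : ℝ) ^ (-(3 / 2 : ℝ)) := by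
  obtain ⟨C₁, hC₁, hmain⟩ := main_choice
  have hC₁0 : 0 < C₁ := by linarith
  have hpi := Real.pi_pos
  set c1 := C₁ * K / κ with hc1
  set c2 := 4 * K / κ with hc2
  set c3 := (2 * κ * C₁ / (K * r)) ^ 2 with hc3
  set c4 := 4 / r ^ 2 with hc4
  set c5 := Real.pi * K ^ 2 / (2 * κ) * (C₁ * (K / κ) ^ (1 / 3 : ℝ)) * (4 / r ^ 2) with hc5
  have p1 : 0 ≤ c1 := by positivity
  have p2 : 0 ≤ c2 := by positivity
  have p3 : 0 ≤ c3 := by positivity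
  have p4 : 0 ≤ c4 := by positivity
  have p5 : 0 ≤ c5 := by positivity
  set C₀ : ℝ := 1 + c1 + c2 + c3 + c4 + c5 with hC₀
  have hC₀1 : 1 ≤ C₀ := by linarith
  have hC₀C : C₀ ≤ C₀ * (2 + K) := by nlinarith
  refine ⟨C₀ * (2 + K), by positivity, ?_⟩
  intro ε hε hCε n hn X hinj hX D A hD0 hA0 hD hA
  have hCε' : C₀ * ε ≤ 1 := le_trans (by gcongr) hCε
  have hn' : C₀ ≤ ε ^ 2 * n := hC₀C.trans hn
  have hε1 : ε ≤ 1 := by nlinarith
  have hn1 : 1 ≤ n := by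
    by_contra h
    have h0 : n = 0 := by omega
    rw [h0] at hn'
    norm_num at hn'
    linarith
  have hnr : (1 : ℝ) ≤ n := by exact_mod_cast hn1
  have hn0 : (0 : ℝ) < n := by linarith
  have hsn : 0 < √(n : ℝ) := Real.sqrt_pos.2 hn0
  have hsqsq : √(n : ℝ) * √(n : ℝ) = n := Real.mul_self_sqrt hn0.le
  set δ : ℝ := ε * K / κ with hδ
  have hδ0 : 0 < δ := by positivity
  have hδ1 : C₁ * δ ≤ 1 := by
    calc C₁ * δ = c1 * ε := by rw [hδ, hc1]; ring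
      _ ≤ C₀ * ε := by gcongr; linarith
      _ ≤ 1 := hCε'
  have hδ2 : 2 * δ < 1 := by
    have : 4 * δ ≤ 1 := by
      calc 4 * δ = c2 * ε := by rw [hδ, hc2]; ring
        _ ≤ C₀ * ε := by gcongr; linarith
        _ ≤ 1 := hCε'
    linarith
  -- `r √n ≥ 2`
  have hrn : 2 ≤ r * √n := by
    have h5 : 4 ≤ r ^ 2 * n := by
      have h6 : c4 ≤ n := by
        calc c4 ≤ C₀ := by linarith
          _ ≤ ε ^ 2 * n := hn'
          _ ≤ 1 * n := by gcongr; nlinarith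
          _ = n := one_mul _
      rw [hc4, div_le_iff₀ (by positivity)] at h6
      linarith
    have h6 : (2 : ℝ) ^ 2 ≤ (r * √n) ^ 2 := by
      rw [mul_pow, Real.sq_sqrt hn0.le]; linarith
    exact le_of_sq_le_sq h6 (by positivity)
  set m : ℤ := ⌊r * √n⌋ with hm
  have hmle : (m : ℝ) ≤ r * √n := Int.floor_le _
  have hmge : r * √n < (m : ℝ) + 1 := Int.lt_floor_add_one _
  have hm2 : r * √n / 2 ≤ m := by linarith
  have hm1 : (1 : ℝ) ≤ m := by linarith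
  have hm1' : (1 : ℤ) ≤ m := by exact_mod_cast hm1
  have hδm : C₁ ≤ δ * m := by
    have h5 : C₁ ≤ δ * (r * √n / 2) := by
      have h6 : (2 * κ * C₁ / (K * r)) ^ 2 ≤ (ε * √n) ^ 2 := by
        calc (2 * κ * C₁ / (K * r)) ^ 2 = c3 := rfl
          _ ≤ C₀ := by linarith
          _ ≤ ε ^ 2 * n := hn'
          _ = (ε * √n) ^ 2 := by rw [mul_pow, Real.sq_sqrt hn0.le]
      have h7 : 2 * κ * C₁ / (K * r) ≤ ε * √n := le_of_sq_le_sq h6 (by positivity)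
      rw [div_le_iff₀ (by positivity)] at h7
      rw [hδ]
      have h8 : ε * K / κ * (r * √n / 2) = (ε * √n * (K * r)) / (2 * κ) := by
        field_simp
      rw [h8, le_div_iff₀ (by positivity)]
      linarith
    exact h5.trans (by gcongr)
  obtain ⟨e₁, ψ, Q, he₁, hN, hW, hψ, hstep⟩ := normal_form hn1 hinj hκ hK hε.le hδ2 hX hA0 hA hmle
  set a : ℝ := 2 * κ / (Real.pi * K ^ 2) * A with ha
  have ha0 : 0 ≤ a := by positivity
  have hfin := hmain m δ a Q hN hW hδ0 ha0 hδ1 hδm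
  have hAa : A = Real.pi * K ^ 2 / (2 * κ) * a := by
    rw [ha]; field_simp
  have hmsq : r ^ 2 * n / 4 ≤ (m : ℝ) ^ 2 := by
    have h5 : (r * √n / 2) ^ 2 ≤ (m : ℝ) ^ 2 := pow_le_pow_left₀ (by positivity) hm2 2
    have h6 : (r * √n / 2) ^ 2 = r ^ 2 * n / 4 := by
      rw [div_pow, mul_pow, Real.sq_sqrt hn0.le]; norm_num
    linarith
  have hδε : δ ^ (1 / 3 : ℝ) = (K / κ) ^ (1 / 3 : ℝ) * ε ^ (1 / 3 : ℝ) := by
    rw [← Real.mul_rpow (by positivity) hε.le]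
    congr 1
    rw [hδ]; ring
  have hε3 : 0 < ε ^ (1 / 3 : ℝ) := Real.rpow_pos_of_pos hε _
  have hAb : A ≤ C₀ * ε ^ (1 / 3 : ℝ) / n := by
    rw [hAa]
    calc Real.pi * K ^ 2 / (2 * κ) * a ≤
        Real.pi * K ^ 2 / (2 * κ) * (C₁ * δ ^ (1 / 3 : ℝ) / (m : ℝ) ^ 2) := by gcongr
      _ ≤ Real.pi * K ^ 2 / (2 * κ) * (C₁ * δ ^ (1 / 3 : ℝ) / (r ^ 2 * n / 4)) := by
          have : 0 < r ^ 2 * (n : ℝ) / 4 := by positivity
          gcongr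
      _ = c5 * ε ^ (1 / 3 : ℝ) / n := by
          rw [hδε, hc5]; field_simp
      _ ≤ C₀ * ε ^ (1 / 3 : ℝ) / n := by gcongr; linarith
  refine ⟨le_trans hAb (by gcongr), ?_⟩
  have hbox0 : box m (0, 0) := by constructor <;> simp <;> omega
  have hbox1 : box m ((0, 0) + (1, 0)) := by constructor <;> simp <;> omega
  have hne : ψ 0 0 ≠ ψ 1 0 := by
    have := hψ (0, 0) ((0, 0) + (1, 0)) hbox0 hbox1 (by simp)
    simpa using this
  have hDle : D ≤ (K + 1) / √n := by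
    have h5 := hD _ _ hne
    have h6 := hstep (0, 0) hbox0 hbox1
    simp only [zero_add] at h6
    rw [dist_comm, dist_eq_norm] at h5
    calc D ≤ ‖X (ψ 1 0) - X (ψ 0 0)‖ := h5
      _ = ‖(X (ψ 1 0) - X (ψ 0 0) - e₁) + e₁‖ := by rw [sub_add_cancel]
      _ ≤ ‖X (ψ 1 0) - X (ψ 0 0) - e₁‖ + ‖e₁‖ := norm_add_le _ _
      _ ≤ ε / √n + K / √n := add_le_add h6 he₁
      _ ≤ 1 / √n + K / √n := by gcongr
      _ = (K + 1) / √n := by ring
  have hpow : (n : ℝ) ^ (-(3 / 2 : ℝ)) = 1 / (√n * n) := by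
    rw [Real.rpow_neg hn0.le, one_div]
    congr 1
    rw [show (3 / 2 : ℝ) = 1 / 2 + 1 by norm_num, Real.rpow_add hn0, Real.rpow_one,
      ← Real.sqrt_eq_rpow]
  rw [hpow]
  calc D * A ≤ ((K + 1) / √n) * (C₀ * ε ^ (1 / 3 : ℝ) / n) := by gcongr
    _ = (C₀ * (1 + K)) * ε ^ (1 / 3 : ℝ) * (1 / (√n * n)) := by field_simp; ring
    _ ≤ (C₀ * (2 + K)) * ε ^ (1 / 3 : ℝ) * (1 / (√n * n)) := by gcongr; norm_num

end Pool.Agent.GridLat
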