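import Pool.Agent.GridLat.Defs

/-!
# The edges of a row are almost parallel
-/

set_option autoImplicit false

namespace Pool.Agent.GridLat

/-- The points of the grid in the basis `v`, `w`. -/
def pt (x v w : ℤ × ℤ) (i k : ℤ) : ℤ × ℤ := x + i • v + k • w

structure Ctx (m : ℤ) (δ a : ℝ) (Q : ℤ × ℤ → ℝ × ℝ) (v w x : ℤ × ℤ) (ν J : ℕ) : Prop where
  near : Near m δ Q
  wide : Wide m a Q
  hν : 1 ≤ ν
  hv1 : |v.1| ≤ ν
  hv2 : |v.2| ≤ ν
  hvm : |v.1| = ν ∨ |v.2| = ν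
  hw : |w.1| + |w.2| = 1
  hvw : v.1 * w.2 - v.2 * w.1 = 1
  hδ0 : 0 ≤ δ
  hδν : 1000 * δ * ν ^ 2 ≤ 1
  hJ : 16 ≤ J
  ha : 0 ≤ a
  hδa : 80 * δ < a * J ^ 2
  hbox : ∀ i k : ℤ, 0 ≤ i → i ≤ 3 * J → 8 * |k| ≤ J + 8 → box m (pt x v w i k)

section

variable {m : ℤ} {δ a : ℝ} {Q : ℤ × ℤ → ℝ × ℝ} {v w x : ℤ × ℤ} {ν J : ℕ}

theorem abs_cr_sub_le (p0 q0 p q : ℝ × ℝ) :
    |cr p q - cr p0 q0| ≤ 2 * ‖p0‖ * ‖q - q0‖ + 2 * ‖p - p0‖ * ‖q0‖ +
      2 * ‖p - p0‖ * ‖q - q0‖ := by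
  have h : cr p q - cr p0 q0 = cr p0 (q - q0) + cr (p - p0) q0 + cr (p - p0) (q - q0) := by
    simp only [cr, Prod.fst_sub, Prod.snd_sub]; ring
  rw [h]
  refine le_trans (abs_add_le _ _) ?_
  refine add_le_add (le_trans (abs_add_le _ _) ?_) (abs_cr_le _ _)
  exact add_le_add (abs_cr_le _ _) (abs_cr_le _ _)

namespace Ctx

theorem δ_le (h : Ctx m δ a Q v w x ν J) : δ ≤ 1 / 1000 := by
  have h1 := h.hδν
  have h2 : (1 : ℝ) ≤ ν := by exact_mod_cast h.hν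
  have h3 : (1 : ℝ) ≤ (ν : ℝ) ^ 2 := by nlinarith
  have h4 := h.hδ0
  nlinarith

theorem νpos (h : Ctx m δ a Q v w x ν J) : (1 : ℝ) ≤ ν := by exact_mod_cast h.hν

theorem norm_v (h : Ctx m δ a Q v w x ν J) : ‖vv v‖ = ν := by
  have h1 : |(v.1 : ℝ)| ≤ ν := by exact_mod_cast h.hv1
  have h2 : |(v.2 : ℝ)| ≤ ν := by exact_mod_cast h.hv2
  rw [Prod.norm_def]
  simp only [vv, Real.norm_eq_abs]
  rcases h.hvm with h3 | h3
  · have h4 : |(v.1 : ℝ)| = ν := by exact_mod_cast h3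
    rw [h4, max_eq_left (by rw [← h4] at h2 ⊢; exact h2)]
  · have h4 : |(v.2 : ℝ)| = ν := by exact_mod_cast h3
    rw [h4, max_eq_right (by rw [← h4] at h1 ⊢; exact h1)]

theorem norm_w (h : Ctx m δ a Q v w x ν J) : ‖vv w‖ ≤ 1 := by
  have h1 : |(w.1 : ℝ)| + |(w.2 : ℝ)| = 1 := by exact_mod_cast h.hw
  rw [Prod.norm_def]
  simp only [vv, Real.norm_eq_abs]
  have h2 := abs_nonneg (w.1 : ℝ)
  have h3 := abs_nonneg (w.2 : ℝ)
  exact max_le (by linarith) (by linarith)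

theorem cr_vw (h : Ctx m δ a Q v w x ν J) : cr (vv v) (vv w) = 1 := by
  have h1 : (v.1 : ℝ) * w.2 - v.2 * w.1 = 1 := by exact_mod_cast h.hvw
  simpa [cr, vv] using h1

/-- Differences of two points of the grid. -/
theorem diff (h : Ctx m δ a Q v w x ν J) {i k j l : ℤ} (h1 : box m (pt x v w i k))
    (h2 : box m (pt x v w j l)) :
    ‖Q (pt x v w j l) - Q (pt x v w i k) -
      ((((j - i : ℤ) : ℝ)) • vv v + (((l - k : ℤ) : ℝ)) • vv w)‖ ≤
      δ * (2 * ν * |((j - i : ℤ) : ℝ)| + |((l - k : ℤ) : ℝ)|) := by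
  set u : ℤ × ℤ := (j - i) • v + (l - k) • w with hu
  have e1 : pt x v w j l = pt x v w i k + u := by
    simp only [pt, hu, sub_smul]; abel
  have e2 : (((j - i : ℤ) : ℝ)) • vv v + (((l - k : ℤ) : ℝ)) • vv w = vv u := by
    ext
    · simp only [vv, hu, Prod.fst_add, Prod.smul_fst, smul_eq_mul]; push_cast; ring
    · simp only [vv, hu, Prod.snd_add, Prod.smul_snd, smul_eq_mul]; push_cast; ring
  rw [e2, e1]
  refine le_trans (h.near.lip _ _ h1 (by rw [← e1]; exact h2)) ?_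
  have hv1 : |(v.1 : ℝ)| ≤ ν := by exact_mod_cast h.hv1
  have hv2 : |(v.2 : ℝ)| ≤ ν := by exact_mod_cast h.hv2
  have hw : |(w.1 : ℝ)| + |(w.2 : ℝ)| = 1 := by exact_mod_cast h.hw
  refine mul_le_mul_of_nonneg_left ?_ h.hδ0
  have e3 : (u.1 : ℝ) = ((j - i : ℤ) : ℝ) * v.1 + ((l - k : ℤ) : ℝ) * w.1 := by
    simp only [hu, Prod.fst_add, Prod.smul_fst, smul_eq_mul]; push_cast; ring
  have e4 : (u.2 : ℝ) = ((j - i : ℤ) : ℝ) * v.2 + ((l - k : ℤ) : ℝ) * w.2 := by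
    simp only [hu, Prod.snd_add, Prod.smul_snd, smul_eq_mul]; push_cast; ring
  rw [e3, e4]
  have h5 := abs_add_le (((j - i : ℤ) : ℝ) * v.1) (((l - k : ℤ) : ℝ) * w.1)
  have h6 := abs_add_le (((j - i : ℤ) : ℝ) * v.2) (((l - k : ℤ) : ℝ) * w.2)
  rw [abs_mul, abs_mul] at h5 h6
  set α := |((j - i : ℤ) : ℝ)|
  set β := |((l - k : ℤ) : ℝ)|
  have hα : 0 ≤ α := abs_nonneg _
  have h7 : α * |(v.1 : ℝ)| ≤ α * ν := mul_le_mul_of_nonneg_left hv1 hα
  have h8 : α * |(v.2 : ℝ)| ≤ α * ν := mul_le_mul_of_nonneg_left hv2 hα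
  have h9 : β * |(w.1 : ℝ)| + β * |(w.2 : ℝ)| = β := by rw [← mul_add, hw, mul_one]
  linarith

/-- The edge vectors. -/
theorem edge (h : Ctx m δ a Q v w x ν J) {i k : ℤ} (h1 : box m (pt x v w i k))
    (h2 : box m (pt x v w (i + 1) k)) :
    ‖Q (pt x v w (i + 1) k) - Q (pt x v w i k) - vv v‖ ≤ 2 * δ * ν := by
  have h3 := h.diff h1 h2
  simp only [add_sub_cancel_left, sub_self, Int.cast_one, Int.cast_zero, one_smul, zero_smul,
    add_zero, abs_one, abs_zero, mul_one] at h3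
  linarith

theorem edgew (h : Ctx m δ a Q v w x ν J) {i k : ℤ} (h1 : box m (pt x v w i k))
    (h2 : box m (pt x v w i (k + 1))) :
    ‖Q (pt x v w i (k + 1)) - Q (pt x v w i k) - vv w‖ ≤ δ := by
  have h3 := h.diff h1 h2
  simp only [add_sub_cancel_left, sub_self, Int.cast_one, Int.cast_zero, one_smul, zero_smul,
    zero_add, abs_one, abs_zero, mul_one, mul_zero] at h3
  linarith

theorem norm_edge (h : Ctx m δ a Q v w x ν J) {i k : ℤ} (h1 : box m (pt x v w i k))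
    (h2 : box m (pt x v w (i + 1) k)) :
    (1 - 2 * δ) * ν ≤ ‖Q (pt x v w (i + 1) k) - Q (pt x v w i k)‖ ∧
    ‖Q (pt x v w (i + 1) k) - Q (pt x v w i k)‖ ≤ (1 + 2 * δ) * ν := by
  have h3 := h.edge h1 h2
  have h4 := h.norm_v
  set E := Q (pt x v w (i + 1) k) - Q (pt x v w i k)
  have h5 : ‖E‖ ≤ ‖E - vv v‖ + ‖vv v‖ := by
    calc ‖E‖ = ‖(E - vv v) + vv v‖ := by rw [sub_add_cancel]
      _ ≤ _ := norm_add_le _ _
  have h6 : ‖vv v‖ ≤ ‖E‖ + ‖E - vv v‖ := by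
    calc ‖vv v‖ = ‖E - (E - vv v)‖ := by rw [sub_sub_cancel]
      _ ≤ _ := norm_sub_le _ _
  constructor <;> nlinarith

/-- The function `f_i`. -/
def F (Q : ℤ × ℤ → ℝ × ℝ) (x v w : ℤ × ℤ) (i j k : ℤ) : ℝ :=
  cr (Q (pt x v w (i + 1) 0) - Q (pt x v w i 0)) (Q (pt x v w j k) - Q (pt x v w i 0))

theorem F_w (h : Ctx m δ a Q v w x ν J) {i j k : ℤ} (h1 : box m (pt x v w i 0))
    (h2 : box m (pt x v w (i + 1) 0)) (h3 : box m (pt x v w j k))
    (h4 : box m (pt x v w j (k + 1))) :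
    |F Q x v w i j (k + 1) - F Q x v w i j k - 1| ≤ 10 * δ * ν ^ 2 := by
  have e1 : F Q x v w i j (k + 1) - F Q x v w i j k =
      cr (Q (pt x v w (i + 1) 0) - Q (pt x v w i 0))
        (Q (pt x v w j (k + 1)) - Q (pt x v w j k)) := by
    simp only [F, cr, Prod.fst_sub, Prod.snd_sub]; ring
  rw [e1, ← h.cr_vw]
  refine le_trans (abs_cr_sub_le _ _ _ _) ?_
  have h5 := h.edge h1 h2
  have h6 := h.edgew h3 h4
  rw [h.norm_v]
  have h7 := h.norm_w
  have h8 := h.νpos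
  have h9 := h.hδ0
  have h10 := h.δ_le
  set p := ‖Q (pt x v w (i + 1) 0) - Q (pt x v w i 0) - vv v‖
  set q := ‖Q (pt x v w j (k + 1)) - Q (pt x v w j k) - vv w‖
  have hp : 0 ≤ p := norm_nonneg _
  have hq : 0 ≤ q := norm_nonneg _
  have hw0 : 0 ≤ ‖vv w‖ := norm_nonneg _
  have g1 : 2 * (ν : ℝ) * q ≤ 2 * ν * δ := by gcongr
  have g2 : 2 * p * ‖vv w‖ ≤ 2 * (2 * δ * ν) * 1 := by gcongr
  have g3 : 2 * p * q ≤ 2 * (2 * δ * ν) * δ := by gcongr
  have g4 : δ * ν ≤ δ * ν ^ 2 := by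
    have : (ν : ℝ) ≤ ν ^ 2 := by nlinarith
    gcongr
  have g5 : δ * ν * δ ≤ δ * ν * (1 / 1000) := by gcongr
  have g6 : 0 ≤ δ * ν := by positivity
  nlinarith

theorem F_v (h : Ctx m δ a Q v w x ν J) {i j k : ℤ} (h1 : box m (pt x v w i 0))
    (h2 : box m (pt x v w (i + 1) 0)) (h3 : box m (pt x v w j k))
    (h4 : box m (pt x v w (j + 1) k)) :
    |F Q x v w i (j + 1) k - F Q x v w i j k| ≤ 10 * δ * ν ^ 2 := by
  have e1 : F Q x v w i (j + 1) k - F Q x v w i j k =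
      cr (Q (pt x v w (i + 1) 0) - Q (pt x v w i 0))
        (Q (pt x v w (j + 1) k) - Q (pt x v w j k)) := by
    simp only [F, cr, Prod.fst_sub, Prod.snd_sub]; ring
  have e2 : cr (Q (pt x v w (i + 1) 0) - Q (pt x v w i 0))
      (Q (pt x v w (j + 1) k) - Q (pt x v w j k)) =
      cr (Q (pt x v w (i + 1) 0) - Q (pt x v w i 0))
        (Q (pt x v w (j + 1) k) - Q (pt x v w j k)) - cr (vv v) (vv v) := by
    rw [cr_self, sub_zero]
  rw [e1, e2]
  refine le_trans (abs_cr_sub_le _ _ _ _) ?_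
  have h5 := h.edge h1 h2
  have h6 := h.edge h3 h4
  rw [h.norm_v]
  have h8 := h.νpos
  have h9 := h.hδ0
  have h10 := h.δ_le
  set p := ‖Q (pt x v w (i + 1) 0) - Q (pt x v w i 0) - vv v‖
  set q := ‖Q (pt x v w (j + 1) k) - Q (pt x v w j k) - vv v‖
  have hp : 0 ≤ p := norm_nonneg _
  have hq : 0 ≤ q := norm_nonneg _
  have g1 : 2 * (ν : ℝ) * q ≤ 2 * ν * (2 * δ * ν) := by gcongr
  have g2 : 2 * p * ν ≤ 2 * (2 * δ * ν) * ν := by gcongr
  have g3 : 2 * p * q ≤ 2 * (2 * δ * ν) * (2 * δ * ν) := by gcongr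
  have g5 : δ * ν * (δ * ν) ≤ 1 / 1000 * ν * (δ * ν) := by gcongr
  have g6 : 0 ≤ δ * ν ^ 2 := by positivity
  nlinarith

/-- Every far point is off the line through two neighbours of the row. -/
theorem dist_far (h : Ctx m δ a Q v w x ν J) {i j k : ℤ} (hi : 0 ≤ i) (hij : J ≤ 2 * (j - i) + 2)
    (hj : j ≤ 2 * J) (hk : 8 * |k| ≤ J) :
    (J : ℝ) * ν / 4 ≤ ‖Q (pt x v w j k) - Q (pt x v w i 0)‖ := by
  have hJ := h.hJ
  have hb1 : box m (pt x v w i 0) := h.hbox _ _ hi (by omega) (by simp; omega)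
  have hb2 : box m (pt x v w j k) := h.hbox _ _ (by omega) (by omega) (by omega)
  have h1 := h.diff hb1 hb2
  set D := Q (pt x v w j k) - Q (pt x v w i 0)
  set d : ℝ := ((j - i : ℤ) : ℝ) with hd
  have hk0 : ((k - 0 : ℤ) : ℝ) = k := by simp
  rw [hk0] at h1
  have h2 : d * ν ≤ ‖D‖ + ‖D - (d • vv v + (k : ℝ) • vv w)‖ + |(k : ℝ)| := by
    have e1 : d • vv v = D - (D - (d • vv v + (k : ℝ) • vv w)) - (k : ℝ) • vv w := by abel
    calc d * ν ≤ ‖d • vv v‖ := by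
          rw [norm_smul, h.norm_v, Real.norm_eq_abs]
          exact mul_le_mul_of_nonneg_right (le_abs_self d) (by positivity)
      _ = ‖D - (D - (d • vv v + (k : ℝ) • vv w)) - (k : ℝ) • vv w‖ := by rw [← e1]
      _ ≤ ‖D - (D - (d • vv v + (k : ℝ) • vv w))‖ + ‖(k : ℝ) • vv w‖ := norm_sub_le _ _
      _ ≤ (‖D‖ + ‖D - (d • vv v + (k : ℝ) • vv w)‖) + |(k : ℝ)| * 1 := by
          refine add_le_add (norm_sub_le _ _) ?_
          rw [norm_smul, Real.norm_eq_abs]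
          exact mul_le_mul_of_nonneg_left h.norm_w (abs_nonneg _)
      _ = _ := by ring
  have hdJ : (J : ℝ) ≤ 2 * d + 2 := by
    rw [hd]; exact_mod_cast hij
  have hd2 : d ≤ 2 * J := by
    rw [hd]; push_cast
    have h3 : (j : ℝ) ≤ 2 * J := by exact_mod_cast hj
    have h4 : (0 : ℝ) ≤ i := by exact_mod_cast hi
    linarith
  have hkr : 8 * |(k : ℝ)| ≤ J := by exact_mod_cast hk
  have hJr : (16 : ℝ) ≤ J := by exact_mod_cast hJ
  have hd0 : 0 ≤ d := by linarith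
  rw [abs_of_nonneg hd0] at h1
  have h8 := h.νpos
  have h9 := h.hδ0
  have h10 := h.δ_le
  have h11 : δ * (2 * ν * d + |(k : ℝ)|) ≤ 1 / 1000 * (2 * ν * (2 * J) + J / 8) := by
    gcongr
    linarith
  have h12 : (J : ℝ) ≤ J * ν := by nlinarith
  have h13 : (J / 2 - 1 : ℝ) * ν ≤ d * ν := by
    have : (J / 2 - 1 : ℝ) ≤ d := by linarith
    gcongr
  have h14 : (16 : ℝ) * ν ≤ J * ν := by gcongr
  nlinarith

theorem far (h : Ctx m δ a Q v w x ν J) {i j k : ℤ} (hi : 0 ≤ i) (hi2 : 2 * i ≤ J) (hj1 : J ≤ j)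
    (hj : j ≤ 2 * J) (hk : 8 * |k| ≤ J) :
    a * ((J : ℝ) * ν / 4) ^ 2 ≤ |F Q x v w i j k| := by
  have hJ := h.hJ
  have hb1 : box m (pt x v w i 0) := h.hbox _ _ hi (by omega) (by simp; omega)
  have hb1' : box m (pt x v w (i + 1) 0) := h.hbox _ _ (by omega) (by omega) (by simp; omega)
  have hb2 : box m (pt x v w j k) := h.hbox _ _ (by omega) (by omega) (by omega)
  have h1 := h.dist_far (i := i) (j := j) (k := k) hi (by omega) hj hk
  have h2 := h.dist_far (i := i + 1) (j := j) (k := k) (by omega) (by omega) hj hk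
  have hJr : (16 : ℝ) ≤ J := by exact_mod_cast hJ
  have h8 := h.νpos
  have hpos : 0 < (J : ℝ) * ν / 4 := by positivity
  have n1 : pt x v w j k ≠ pt x v w i 0 := by
    intro he
    rw [he, sub_self, norm_zero] at h1
    linarith
  have n2 : pt x v w j k ≠ pt x v w (i + 1) 0 := by
    intro he
    rw [he, sub_self, norm_zero] at h2
    linarith
  have n3 : pt x v w i 0 ≠ pt x v w (i + 1) 0 := by
    intro he
    have h3 := (h.norm_edge hb1 hb1').1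
    rw [← he, sub_self, norm_zero] at h3
    have h4 := h.δ_le
    nlinarith
  have h5 := h.wide _ _ _ hb2 hb1 hb1' n1 n2 n3
  have e1 : cr (Q (pt x v w i 0) - Q (pt x v w j k))
      (Q (pt x v w (i + 1) 0) - Q (pt x v w j k)) = F Q x v w i j k := by
    simp only [F, cr, Prod.fst_sub, Prod.snd_sub]; ring
  rw [e1, norm_sub_rev (Q (pt x v w i 0)), norm_sub_rev (Q (pt x v w (i + 1) 0))] at h5
  refine le_trans ?_ h5
  have ha := h.ha
  calc a * ((J : ℝ) * ν / 4) ^ 2 = a * ((J : ℝ) * ν / 4) * ((J : ℝ) * ν / 4) := by ring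
    _ ≤ _ := by gcongr

theorem eta_lt (h : Ctx m δ a Q v w x ν J) :
    10 * δ * ν ^ 2 < 2 * (a * ((J : ℝ) * ν / 4) ^ 2) := by
  have h1 := h.hδa
  have h8 := h.νpos
  have h2 : (0 : ℝ) < (ν : ℝ) ^ 2 := by positivity
  have h3 : 80 * δ * (ν : ℝ) ^ 2 < a * J ^ 2 * ν ^ 2 := by gcongr
  nlinarith

theorem eta_le (h : Ctx m δ a Q v w x ν J) : 10 * δ * ν ^ 2 ≤ 1 / 100 := by
  have := h.hδν
  linarith

theorem dν_le (h : Ctx m δ a Q v w x ν J) : δ * ν ≤ 1 / 1000 := by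
  have h1 := h.hδν
  have h8 := h.νpos
  have h9 := h.hδ0
  have : δ * ν ≤ δ * ν ^ 2 := by
    have : (ν : ℝ) ≤ ν ^ 2 := by nlinarith
    gcongr
  linarith

/-- No row is crossed in the far part. -/
theorem sign_neg (h : Ctx m δ a Q v w x ν J) {i k : ℤ} (hi : 0 ≤ i) (hi2 : 2 * i ≤ J)
    (hk : 8 * |k| ≤ J) (hF : F Q x v w i J k ≤ 0) (l : ℕ) (hl : l ≤ J) :
    F Q x v w i (J + l) k ≤ 0 := by
  have hJ := h.hJ
  induction l with
  | zero => simpa using hF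
  | succ l ih =>
    have h1 := ih (by omega)
    have h2 := h.far (i := i) (j := J + l) (k := k) hi hi2 (by omega) (by omega) hk
    have h3 := h.far (i := i) (j := J + (l + 1 : ℕ)) (k := k) hi hi2 (by omega) (by omega) hk
    have h4 := h.F_v (i := i) (j := J + l) (k := k) (h.hbox _ _ hi (by omega) (by simp; omega))
      (h.hbox _ _ (by omega) (by omega) (by simp; omega))
      (h.hbox _ _ (by omega) (by omega) (by omega)) (h.hbox _ _ (by omega) (by omega) (by omega))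
    have e1 : (J : ℤ) + (l + 1 : ℕ) = J + l + 1 := by push_cast; ring
    rw [e1] at h3 ⊢
    have h5 := h.eta_lt
    set β := a * ((J : ℝ) * ν / 4) ^ 2
    rw [abs_of_nonpos h1] at h2
    have h6 := (abs_le.1 h4).2
    by_contra hc
    push Not at hc
    rw [abs_of_pos hc] at h3
    linarith

theorem sign_pos (h : Ctx m δ a Q v w x ν J) {i k : ℤ} (hi : 0 ≤ i) (hi2 : 2 * i ≤ J)
    (hk : 8 * |k| ≤ J) (hF : 0 ≤ F Q x v w i J k) (l : ℕ) (hl : l ≤ J) :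
    0 ≤ F Q x v w i (J + l) k := by
  have hJ := h.hJ
  induction l with
  | zero => simpa using hF
  | succ l ih =>
    have h1 := ih (by omega)
    have h2 := h.far (i := i) (j := J + l) (k := k) hi hi2 (by omega) (by omega) hk
    have h3 := h.far (i := i) (j := J + (l + 1 : ℕ)) (k := k) hi hi2 (by omega) (by omega) hk
    have h4 := h.F_v (i := i) (j := J + l) (k := k) (h.hbox _ _ hi (by omega) (by simp; omega))
      (h.hbox _ _ (by omega) (by omega) (by simp; omega))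
      (h.hbox _ _ (by omega) (by omega) (by omega)) (h.hbox _ _ (by omega) (by omega) (by omega))
    have e1 : (J : ℤ) + (l + 1 : ℕ) = J + l + 1 := by push_cast; ring
    rw [e1] at h3 ⊢
    have h5 := h.eta_lt
    set β := a * ((J : ℝ) * ν / 4) ^ 2
    rw [abs_of_nonneg h1] at h2
    have h6 := (abs_le.1 h4).1
    by_contra hc
    push Not at hc
    rw [abs_of_neg hc] at h3
    linarith

theorem F_zero (h : Ctx m δ a Q v w x ν J) {i : ℤ} (hi : 0 ≤ i) (hi2 : 2 * i ≤ J) :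
    |F Q x v w i J 0| ≤ J / 100 := by
  have hJ := h.hJ
  have hb1 : box m (pt x v w i 0) := h.hbox _ _ hi (by omega) (by simp; omega)
  have hb1' : box m (pt x v w (i + 1) 0) := h.hbox _ _ (by omega) (by omega) (by simp; omega)
  have hb2 : box m (pt x v w J 0) := h.hbox _ _ (by omega) (by omega) (by simp; omega)
  have h1 := h.edge hb1 hb1'
  have h2 := h.diff hb1 hb2
  have hk0 : ((0 - 0 : ℤ) : ℝ) = 0 := by simp
  rw [hk0, zero_smul, add_zero, abs_zero, add_zero] at h2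
  have h3 := abs_cr_sub_le (vv v) ((((J : ℤ) - i : ℤ) : ℝ) • vv v)
    (Q (pt x v w (i + 1) 0) - Q (pt x v w i 0)) (Q (pt x v w J 0) - Q (pt x v w i 0))
  have e1 : cr (vv v) ((((J : ℤ) - i : ℤ) : ℝ) • vv v) = 0 := by
    simp only [cr, Prod.smul_fst, Prod.smul_snd, smul_eq_mul]; ring
  rw [e1, sub_zero, norm_smul, h.norm_v, Real.norm_eq_abs] at h3
  have hd0 : (0 : ℝ) ≤ (((J : ℤ) - i : ℤ) : ℝ) := by exact_mod_cast (by omega : (0 : ℤ) ≤ J - i)
  have hd1 : (((J : ℤ) - i : ℤ) : ℝ) ≤ J := by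
    push_cast
    have : (0 : ℝ) ≤ i := by exact_mod_cast hi
    linarith
  rw [abs_of_nonneg hd0] at h3 h2
  set d : ℝ := (((J : ℤ) - i : ℤ) : ℝ)
  change |F Q x v w i J 0| ≤ _ at h3
  refine le_trans h3 ?_
  set p := ‖Q (pt x v w (i + 1) 0) - Q (pt x v w i 0) - vv v‖
  set q := ‖Q (pt x v w J 0) - Q (pt x v w i 0) - d • vv v‖
  have hp : 0 ≤ p := norm_nonneg _
  have hq : 0 ≤ q := norm_nonneg _
  have h8 := h.νpos
  have h9 := h.hδ0
  have h10 := h.dν_le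
  have h11 := h.hδν
  have hJ0 : (0 : ℝ) ≤ J := by positivity
  have hq2 : q ≤ δ * (2 * ν * J) := le_trans h2 (by gcongr)
  have g1 : 2 * (ν : ℝ) * q ≤ 2 * ν * (δ * (2 * ν * J)) := by gcongr
  have g2 : 2 * p * (d * ν) ≤ 2 * (2 * δ * ν) * (J * ν) := by gcongr
  have g3 : 2 * p * q ≤ 2 * (2 * δ * ν) * (δ * (2 * ν * J)) := by gcongr
  have g4 : 1000 * δ * ν ^ 2 * J ≤ 1 * J := by gcongr
  have g5 : δ * ν * (δ * ν * J) ≤ 1 / 1000 * (1 / 1000 * J) := by gcongr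
  nlinarith

/-- Discrete intermediate values. -/
theorem _root_.Pool.Agent.GridLat.ivt (g : ℤ → ℝ) (c : ℤ) (n : ℕ) :
    1 ≤ n → g c ≤ 0 → 0 ≤ g (c + n) → ∃ κ : ℤ, c ≤ κ ∧ κ < c + n ∧ g κ ≤ 0 ∧ 0 ≤ g (κ + 1) := by
  induction n with
  | zero => intro h; omega
  | succ n ih =>
    intro _ h1 h2
    rcases Nat.eq_zero_or_pos n with h0 | h0
    · subst h0
      exact ⟨c, le_refl _, by push_cast; omega, h1, by simpa using h2⟩
    rcases le_total 0 (g (c + n)) with h3 | h3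
    · obtain ⟨κ, k1, k2, k3, k4⟩ := ih h0 h1 h3
      exact ⟨κ, k1, by push_cast; omega, k3, k4⟩
    · refine ⟨c + n, by omega, by push_cast; omega, h3, ?_⟩
      have : c + (n : ℤ) + 1 = c + ((n + 1 : ℕ) : ℤ) := by push_cast; ring
      rw [this]; exact h2

theorem F_add (h : Ctx m δ a Q v w x ν J) {i : ℤ} (hi : 0 ≤ i) (hi2 : 2 * i ≤ J) (c : ℤ) (n : ℕ)
    (hc1 : 8 * |c| ≤ J) (hc2 : 8 * |c + n| ≤ J) :
    (99 / 100 : ℝ) * n ≤ F Q x v w i J (c + n) - F Q x v w i J c := by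
  have hJ := h.hJ
  induction n with
  | zero => simp
  | succ n ih =>
    have hc3 : 8 * |c + n| ≤ J := by
      have h1 := abs_le.1 (show |8 * c| ≤ J by rw [abs_mul]; simpa using hc1)
      have h2 := abs_le.1 (show |8 * (c + (n + 1 : ℕ))| ≤ J by rw [abs_mul]; simpa using hc2)
      have h3 : |8 * (c + (n : ℤ))| ≤ J := abs_le.2 ⟨by omega, by push_cast at h2; omega⟩
      rw [abs_mul] at h3; simpa using h3
    have h1 := ih hc3
    have h2 := h.F_w (i := i) (j := J) (k := c + n) (h.hbox _ _ hi (by omega) (by simp; omega))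
      (h.hbox _ _ (by omega) (by omega) (by simp; omega))
      (h.hbox _ _ (by omega) (by omega) (by omega)) (h.hbox _ _ (by omega) (by omega) (by
        have : c + (n : ℤ) + 1 = c + ((n + 1 : ℕ) : ℤ) := by push_cast; ring
        rw [this]; omega))
    have e1 : c + (n : ℤ) + 1 = c + ((n + 1 : ℕ) : ℤ) := by push_cast; ring
    rw [e1] at h2
    have h3 := (abs_le.1 h2).1
    have h4 := h.eta_le
    push_cast at h1 h3 ⊢
    linarith

/-- The row that follows the line in the far part. -/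
theorem exists_kappa (h : Ctx m δ a Q v w x ν J) {i : ℤ} (hi : 0 ≤ i) (hi2 : 2 * i ≤ J) :
    ∃ κ : ℤ, 8 * |κ| ≤ J ∧ |F Q x v w i J κ| ≤ 101 / 100 ∧ |F Q x v w i (2 * J) κ| ≤ 101 / 100 ∧
      |F Q x v w i (2 * J) κ - F Q x v w i J κ| ≤ 101 / 100 := by
  have hJ := h.hJ
  set K : ℕ := J / 8 with hK
  have hK8 : 8 * K ≤ J := Nat.mul_div_le J 8
  have hK16 : J ≤ 16 * K := by omega
  have hb0 := h.F_zero hi hi2
  have hJr : (0 : ℝ) < J := by exact_mod_cast (by omega : 0 < J)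
  have hKr : (J : ℝ) ≤ 16 * K := by exact_mod_cast hK16
  have g1 : 0 ≤ F Q x v w i J (-(K : ℤ) + ((2 * K : ℕ) : ℤ)) := by
    have h1 := h.F_add hi hi2 0 K (by simp) (by simpa using (by omega : 8 * (K : ℤ) ≤ J))
    rw [zero_add] at h1
    have e1 : -(K : ℤ) + ((2 * K : ℕ) : ℤ) = K := by push_cast; ring
    rw [e1]
    have h2 := (abs_le.1 hb0).1
    linarith
  have g2 : F Q x v w i J (-(K : ℤ)) ≤ 0 := by
    have h1 := h.F_add hi hi2 (-(K : ℤ)) K (by simpa using (by omega : 8 * (K : ℤ) ≤ J)) (by simp)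
    rw [neg_add_cancel] at h1
    have h2 := (abs_le.1 hb0).2
    linarith
  obtain ⟨κ, k1, k2, k3, k4⟩ := ivt (fun k => F Q x v w i J k) (-(K : ℤ)) (2 * K) (by omega) g2 g1
  push_cast at k2
  have hκ : 8 * |κ| ≤ J := by
    have : |κ| ≤ K := abs_le.2 ⟨k1, by omega⟩
    omega
  have hκ' : 8 * |κ + 1| ≤ J := by
    have : |κ + 1| ≤ K := abs_le.2 ⟨by omega, by omega⟩
    omega
  have s1 := h.sign_neg hi hi2 hκ k3 J le_rfl
  have s2 := h.sign_pos hi hi2 hκ' k4 J le_rfl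
  have e2 : (J : ℤ) + J = 2 * J := by ring
  rw [e2] at s1 s2
  have w1 := h.F_w (i := i) (j := J) (k := κ) (h.hbox _ _ hi (by omega) (by simp; omega))
      (h.hbox _ _ (by omega) (by omega) (by simp; omega))
      (h.hbox _ _ (by omega) (by omega) (by omega)) (h.hbox _ _ (by omega) (by omega) (by omega))
  have w2 := h.F_w (i := i) (j := 2 * J) (k := κ) (h.hbox _ _ hi (by omega) (by simp; omega))
      (h.hbox _ _ (by omega) (by omega) (by simp; omega))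
      (h.hbox _ _ (by omega) (by omega) (by omega)) (h.hbox _ _ (by omega) (by omega) (by omega))
  have h4 := h.eta_le
  have w3 := (abs_le.1 w1).2
  have w4 := (abs_le.1 w2).2
  refine ⟨κ, hκ, ?_, ?_, ?_⟩ <;> rw [abs_le] <;> constructor <;> linarith

/-- The edge vector of the row at `i`. -/
def V (Q : ℤ × ℤ → ℝ × ℝ) (x v w : ℤ × ℤ) (i : ℤ) : ℝ × ℝ :=
  Q (pt x v w (i + 1) 0) - Q (pt x v w i 0)

/-- The self-improving inequality. -/
theorem step (h : Ctx m δ a Q v w x ν J) {i : ℤ} (hi : 0 ≤ i) (hi2 : 2 * i ≤ J) {Λ : ℝ}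
    (hΛ : ∀ l : ℕ, (l : ℤ) ≤ i → |cr (V Q x v w 0) (V Q x v w l)| ≤ Λ) :
    |cr (V Q x v w 0) (V Q x v w i)| ≤ 21 / 10 / J + Λ / 100 := by
  have hJ := h.hJ
  obtain ⟨κ, k1, k2, k3, k4⟩ := h.exists_kappa hi hi2
  obtain ⟨κ₀, c1, c2, c3, c4⟩ := h.exists_kappa (i := 0) le_rfl (by omega)
  have hb0 : box m (pt x v w 0 0) := h.hbox _ _ le_rfl (by omega) (by simp; omega)
  have hb0' : box m (pt x v w (0 + 1) 0) := h.hbox _ _ (by omega) (by omega) (by simp; omega)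
  have hbi : box m (pt x v w i 0) := h.hbox _ _ hi (by omega) (by simp; omega)
  have hbi' : box m (pt x v w (i + 1) 0) := h.hbox _ _ (by omega) (by omega) (by simp; omega)
  have hbJ : box m (pt x v w J κ) := h.hbox _ _ (by omega) (by omega) (by omega)
  have hb2J : box m (pt x v w (2 * J) κ) := h.hbox _ _ (by omega) (by omega) (by omega)
  have hbJ0 : box m (pt x v w J κ₀) := h.hbox _ _ (by omega) (by omega) (by omega)
  have hb2J0 : box m (pt x v w (2 * J) κ₀) := h.hbox _ _ (by omega) (by omega) (by omega)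
  obtain ⟨n1, n2⟩ := h.norm_edge hb0 hb0'
  obtain ⟨n3, n4⟩ := h.norm_edge hbi hbi'
  have e0 := h.edge hb0 hb0'
  have h8 := h.νpos
  have h9 := h.hδ0
  have h10 := h.δ_le
  have h11 := h.dν_le
  have hJr : (16 : ℝ) ≤ J := by exact_mod_cast hJ
  have hJpos : (0 : ℝ) < J := by linarith
  have hνpos : (0 : ℝ) < ν := by linarith
  set V0 := V Q x v w 0 with hV0
  set Vi := V Q x v w i with hVi
  change (1 - 2 * δ) * ν ≤ ‖V0‖ at n1
  change ‖V0‖ ≤ (1 + 2 * δ) * ν at n2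
  change (1 - 2 * δ) * ν ≤ ‖Vi‖ at n3
  change ‖Vi‖ ≤ (1 + 2 * δ) * ν at n4
  change ‖V0 - vv v‖ ≤ 2 * δ * ν at e0
  have n5 : ‖V0‖ ≤ 1002 / 1000 * ν := by nlinarith
  have n6 : ‖Vi‖ ≤ 1002 / 1000 * ν := by nlinarith
  have n7 : 998 / 1000 * ν ≤ ‖Vi‖ := by nlinarith
  set lam := cr V0 Vi with hlam
  -- the number of rows between the two lines
  set T : ℝ := |(κ : ℝ) - κ₀| with hT
  have hT0 : 0 ≤ T := abs_nonneg _
  -- the vector `G`
  set G := Q (pt x v w (2 * J) κ) - Q (pt x v w J κ) with hG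
  set G0 := Q (pt x v w (2 * J) κ₀) - Q (pt x v w J κ₀) with hG0
  have g1 : |cr Vi G| ≤ 101 / 100 := by
    have : cr Vi G = F Q x v w i (2 * J) κ - F Q x v w i J κ := by
      simp only [F, V, cr, hG, hVi, Prod.fst_sub, Prod.snd_sub]; ring
    rw [this]; exact k4
  have g2 : |cr V0 G0| ≤ 101 / 100 := by
    have : cr V0 G0 = F Q x v w 0 (2 * J) κ₀ - F Q x v w 0 J κ₀ := by
      simp only [F, V, cr, hG0, hV0, Prod.fst_sub, Prod.snd_sub]; ring
    rw [this]; exact c4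
  have d1 := h.diff hbJ0 hbJ
  have d2 := h.diff hb2J0 hb2J
  simp only [sub_self, Int.cast_zero, zero_smul, zero_add, abs_zero, mul_zero] at d1 d2
  have eT : |((κ - κ₀ : ℤ) : ℝ)| = T := by rw [hT]; push_cast; rfl
  rw [eT] at d1 d2
  have g3 : ‖G - G0‖ ≤ 2 * δ * T := by
    have e1 : G - G0 = (Q (pt x v w (2 * J) κ) - Q (pt x v w (2 * J) κ₀) -
        ((κ - κ₀ : ℤ) : ℝ) • vv w) - (Q (pt x v w J κ) - Q (pt x v w J κ₀) -
        ((κ - κ₀ : ℤ) : ℝ) • vv w) := by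
      rw [hG, hG0]; abel
    rw [e1]
    refine le_trans (norm_sub_le _ _) ?_
    linarith
  have g4 : |cr V0 G| ≤ 101 / 100 + 5 / 1000 * T := by
    have e1 : cr V0 G = cr V0 G0 + cr V0 (G - G0) := by rw [← cr_add_right, add_sub_cancel]
    rw [e1]
    refine le_trans (abs_add_le _ _) ?_
    have g5 := abs_cr_le V0 (G - G0)
    have g6 : 2 * ‖V0‖ * ‖G - G0‖ ≤ 2 * (1002 / 1000 * ν) * (2 * δ * T) := by gcongr
    have g7 : δ * ν * T ≤ 1 / 1000 * T := by gcongr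
    nlinarith
  have g8 : 99 / 100 * J * ν ≤ ‖G‖ := by
    have d3 := h.diff hbJ hb2J
    simp only [sub_self, Int.cast_zero, zero_smul, add_zero, abs_zero] at d3
    have e1 : ((2 * (J : ℤ) - J : ℤ) : ℝ) = J := by push_cast; ring
    rw [e1, abs_of_pos hJpos] at d3
    change ‖G - (J : ℝ) • vv v‖ ≤ _ at d3
    have e2 : ‖(J : ℝ) • vv v‖ = J * ν := by
      rw [norm_smul, h.norm_v, Real.norm_eq_abs, abs_of_pos hJpos]
    have e3 : ‖(J : ℝ) • vv v‖ ≤ ‖G‖ + ‖G - (J : ℝ) • vv v‖ := by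
      calc ‖(J : ℝ) • vv v‖ = ‖G - (G - (J : ℝ) • vv v)‖ := by rw [sub_sub_cancel]
        _ ≤ _ := norm_sub_le _ _
    have e4 : δ * (2 * ν * J) ≤ 1 / 1000 * (2 * ν * J) := by gcongr
    nlinarith
  -- first inequality
  have m1 : |lam| * ‖G‖ ≤ |cr V0 G| * ‖Vi‖ + |cr Vi G| * ‖V0‖ := by
    have e1 := cr_smul V0 Vi G
    have e2 : ‖cr V0 Vi • G‖ ≤ ‖cr V0 G • Vi‖ + ‖cr Vi G • V0‖ := by
      rw [e1]; exact norm_sub_le _ _
    rwa [norm_smul, norm_smul, norm_smul, Real.norm_eq_abs, Real.norm_eq_abs,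
      Real.norm_eq_abs] at e2
  have m2 : |lam| * (99 / 100 * J * ν) ≤
      (101 / 100 + 5 / 1000 * T) * (1002 / 1000 * ν) + 101 / 100 * (1002 / 1000 * ν) := by
    calc |lam| * (99 / 100 * J * ν) ≤ |lam| * ‖G‖ := by gcongr
      _ ≤ _ := m1
      _ ≤ _ := by gcongr
  have m3 : |lam| * (99 / 100 * J) ≤ (101 / 100 + 5 / 1000 * T) * (1002 / 1000) +
      101 / 100 * (1002 / 1000) := by
    refine le_of_mul_le_mul_right ?_ hνpos
    linarith
  -- the number of rows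
  have r1 : 99 / 100 * T ≤ |F Q x v w 0 J κ| + 101 / 100 := by
    have e1 : F Q x v w 0 J κ - F Q x v w 0 J κ₀ =
        cr V0 (Q (pt x v w J κ) - Q (pt x v w J κ₀)) := by
      simp only [F, V, cr, hV0, Prod.fst_sub, Prod.snd_sub]; ring
    have e2 := abs_cr_sub_le (vv v) (((κ - κ₀ : ℤ) : ℝ) • vv w) V0
      (Q (pt x v w J κ) - Q (pt x v w J κ₀))
    have e3 : cr (vv v) (((κ - κ₀ : ℤ) : ℝ) • vv w) = ((κ - κ₀ : ℤ) : ℝ) := by
      have := h.cr_vw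
      simp only [cr, Prod.smul_fst, Prod.smul_snd, smul_eq_mul] at this ⊢
      linear_combination ((κ - κ₀ : ℤ) : ℝ) * this
    rw [e3, ← e1, norm_smul, h.norm_v, Real.norm_eq_abs, eT] at e2
    have e4 := h.norm_w
    have e5 : 0 ≤ ‖vv w‖ := norm_nonneg _
    have e6 : 2 * (ν : ℝ) * ‖Q (pt x v w J κ) - Q (pt x v w J κ₀) - ((κ - κ₀ : ℤ) : ℝ) • vv w‖ ≤
        2 * ν * (δ * T) := by gcongr
    have e7 : 2 * ‖V0 - vv v‖ * (T * ‖vv w‖) ≤ 2 * (2 * δ * ν) * (T * 1) := by gcongr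
    have e8 : 2 * ‖V0 - vv v‖ *
        ‖Q (pt x v w J κ) - Q (pt x v w J κ₀) - ((κ - κ₀ : ℤ) : ℝ) • vv w‖ ≤
        2 * (2 * δ * ν) * (δ * T) := by gcongr
    have e9 : δ * ν * T ≤ 1 / 1000 * T := by gcongr
    have e10 : δ * ν * (δ * T) ≤ 1 / 1000 * (1 / 1000 * T) := by gcongr
    have e11 : T ≤ |F Q x v w 0 J κ - F Q x v w 0 J κ₀| +
        |F Q x v w 0 J κ - F Q x v w 0 J κ₀ - ((κ - κ₀ : ℤ) : ℝ)| := by
      have := abs_sub (F Q x v w 0 J κ - F Q x v w 0 J κ₀)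
        (F Q x v w 0 J κ - F Q x v w 0 J κ₀ - ((κ - κ₀ : ℤ) : ℝ))
      rw [sub_sub_cancel, eT] at this
      exact this
    have e12 := abs_sub (F Q x v w 0 J κ) (F Q x v w 0 J κ₀)
    linarith
  set Y := Q (pt x v w J κ) - Q (pt x v w i 0) with hY
  have y1 : |cr Vi Y| ≤ 101 / 100 := by
    have : cr Vi Y = F Q x v w i J κ := by simp only [F, V, hY, hVi]
    rw [this]; exact k2
  have y2 : ‖Y‖ ≤ 12 / 10 * J * ν := by
    have d3 := h.diff hbi hbJ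
    have e1 : (((κ : ℤ) - 0 : ℤ) : ℝ) = κ := by simp
    rw [e1] at d3
    have hd0 : (0 : ℝ) ≤ (((J : ℤ) - i : ℤ) : ℝ) := by
      exact_mod_cast (by omega : (0 : ℤ) ≤ J - i)
    have hd1 : (((J : ℤ) - i : ℤ) : ℝ) ≤ J := by
      push_cast
      have : (0 : ℝ) ≤ i := by exact_mod_cast hi
      linarith
    rw [abs_of_nonneg hd0] at d3
    set d : ℝ := (((J : ℤ) - i : ℤ) : ℝ)
    have hκr : 8 * |(κ : ℝ)| ≤ J := by exact_mod_cast k1
    have e2 : ‖Y‖ ≤ ‖Y - (d • vv v + (κ : ℝ) • vv w)‖ + ‖d • vv v + (κ : ℝ) • vv w‖ := by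
      calc ‖Y‖ = ‖(Y - (d • vv v + (κ : ℝ) • vv w)) + (d • vv v + (κ : ℝ) • vv w)‖ := by
            rw [sub_add_cancel]
        _ ≤ _ := norm_add_le _ _
    have e3 : ‖d • vv v + (κ : ℝ) • vv w‖ ≤ d * ν + |(κ : ℝ)| * 1 := by
      refine le_trans (norm_add_le _ _) ?_
      rw [norm_smul, norm_smul, h.norm_v, Real.norm_eq_abs, Real.norm_eq_abs, abs_of_nonneg hd0]
      have := h.norm_w
      gcongr
    have e4 : δ * (2 * ν * d + |(κ : ℝ)|) ≤ 1 / 1000 * (2 * ν * J + J / 8) := by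
      gcongr
      linarith
    have e5 : d * ν ≤ J * ν := by gcongr
    have e6 : (J : ℝ) ≤ J * ν := by nlinarith
    linarith
  have y3 : |cr V0 Y| ≤ 121 / 100 * J * |lam| + 102 / 100 := by
    have e1 := cr_smul V0 Vi Y
    have e2 : cr V0 Y • Vi = cr V0 Vi • Y + cr Vi Y • V0 := by rw [e1]; abel
    have e3 : ‖cr V0 Y • Vi‖ ≤ ‖cr V0 Vi • Y‖ + ‖cr Vi Y • V0‖ := by
      rw [e2]; exact norm_add_le _ _
    rw [norm_smul, norm_smul, norm_smul, Real.norm_eq_abs, Real.norm_eq_abs,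
      Real.norm_eq_abs, ← hlam] at e3
    have e4 : |cr V0 Y| * (998 / 1000 * ν) ≤
        |lam| * (12 / 10 * J * ν) + 101 / 100 * (1002 / 1000 * ν) := by
      calc |cr V0 Y| * (998 / 1000 * ν) ≤ |cr V0 Y| * ‖Vi‖ := by gcongr
        _ ≤ _ := e3
        _ ≤ _ := by gcongr
    have e5 : |cr V0 Y| * (998 / 1000) ≤ |lam| * (12 / 10 * J) + 101 / 100 * (1002 / 1000) := by
      refine le_of_mul_le_mul_right ?_ hνpos
      linarith
    have e6 : 0 ≤ J * |lam| := by positivity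
    nlinarith
  -- the sum over the row
  have s1 : ∀ l : ℕ, (l : ℤ) ≤ i →
      |cr V0 (Q (pt x v w l 0) - Q (pt x v w 0 0))| ≤ l * Λ := by
    intro l
    induction l with
    | zero =>
      intro _
      simp [cr]
    | succ l ih =>
      intro hl
      have i1 := ih (by push_cast at hl; omega)
      have i2 := hΛ l (by push_cast at hl; omega)
      have e1 : cr V0 (Q (pt x v w ((l + 1 : ℕ) : ℤ) 0) - Q (pt x v w 0 0)) =
          cr V0 (Q (pt x v w l 0) - Q (pt x v w 0 0)) + cr V0 (V Q x v w l) := by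
        have : ((l + 1 : ℕ) : ℤ) = (l : ℤ) + 1 := by push_cast; ring
        rw [this]
        simp only [V, cr, Prod.fst_sub, Prod.snd_sub]; ring
      rw [e1]
      refine le_trans (abs_add_le _ _) ?_
      push_cast
      linarith
  obtain ⟨n, hn⟩ := Int.eq_ofNat_of_zero_le hi
  have hΛ0 : 0 ≤ Λ := le_trans (abs_nonneg _) (hΛ 0 (by simpa using hi))
  have s2 : |cr V0 (Q (pt x v w i 0) - Q (pt x v w 0 0))| ≤ J / 2 * Λ := by
    have e1 := s1 n (by omega)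
    have e2 : (n : ℤ) = i := by omega
    rw [e2] at e1
    refine le_trans e1 ?_
    have e3 : (2 : ℝ) * n ≤ J := by exact_mod_cast (by omega : 2 * n ≤ J)
    have e4 : (n : ℝ) ≤ J / 2 := by linarith
    gcongr
  have r2 : |F Q x v w 0 J κ| ≤ 121 / 100 * J * |lam| + 102 / 100 + J / 2 * Λ := by
    have e1 : F Q x v w 0 J κ = cr V0 Y + cr V0 (Q (pt x v w i 0) - Q (pt x v w 0 0)) := by
      simp only [F, V, cr, hV0, hY, Prod.fst_sub, Prod.snd_sub]; ring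
    rw [e1]
    refine le_trans (abs_add_le _ _) ?_
    linarith
  have hlΛ : |lam| ≤ Λ := by
    have := hΛ n (by omega)
    have e2 : (n : ℤ) = i := by omega
    rw [e2] at this
    exact this
  have r3 : T ≤ 175 / 100 * (J * Λ) + 206 / 100 := by
    have e1 : J * |lam| ≤ J * Λ := by gcongr
    nlinarith
  have r4 : |lam| * J ≤ 21 / 10 + J * Λ / 100 := by
    have e0 : 0 ≤ J * Λ := by positivity
    nlinarith
  have e1 : (21 / 10 : ℝ) / J + Λ / 100 = (21 / 10 + J * Λ / 100) / J := by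
    field_simp
  rw [e1, le_div_iff₀ hJpos]
  exact r4

/-- **Lemma S.** -/
theorem edges (h : Ctx m δ a Q v w x ν J) (i : ℕ) (hi : 2 * i ≤ J) :
    |cr (V Q x v w 0) (V Q x v w i)| ≤ 3 / J := by
  obtain ⟨l, hl1, hl2⟩ := Finset.exists_max_image (Finset.range (J / 2 + 1))
    (fun l : ℕ => |cr (V Q x v w 0) (V Q x v w l)|) ⟨0, by simp⟩
  simp only [Finset.mem_range] at hl1 hl2
  have h1 := h.step (i := l) (by omega) (by omega)
    (Λ := |cr (V Q x v w 0) (V Q x v w l)|) (fun l' hl' => hl2 l' (by omega))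
  have h2 := hl2 i (by omega)
  have hJ := h.hJ
  have hJr : (16 : ℝ) ≤ J := by exact_mod_cast hJ
  have hJpos : (0 : ℝ) < J := by linarith
  set Λ := |cr (V Q x v w 0) (V Q x v w l)|
  have h3 : 99 / 100 * Λ ≤ 21 / 10 / J := by linarith
  have h4 : 3 / (J : ℝ) = (21 / 10 / J) * (10 / 7) := by field_simp; norm_num
  have h5 : 0 < 21 / 10 / (J : ℝ) := by positivity
  refine le_trans h2 ?_
  rw [h4]
  linarith

end Ctx

end

theorem lemS {m : ℤ} {δ a : ℝ} {Q : ℤ × ℤ → ℝ × ℝ} (hN : Near m δ Q) (hW : Wide m a Q)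
    {v w : ℤ × ℤ} {ν : ℕ} (hν : 1 ≤ ν) (hv1 : |v.1| ≤ ν) (hv2 : |v.2| ≤ ν)
    (hvm : |v.1| = ν ∨ |v.2| = ν) (hw : |w.1| + |w.2| = 1) (hvw : v.1 * w.2 - v.2 * w.1 = 1)
    (hδ0 : 0 ≤ δ) (hδν : 1000 * δ * ν ^ 2 ≤ 1) {J : ℕ} (hJ : 16 ≤ J) (hδa : 80 * δ < a * J ^ 2)
    (x : ℤ × ℤ)
    (hbox : ∀ i k : ℤ, 0 ≤ i → i ≤ 3 * J → 8 * |k| ≤ J + 8 → box m (x + i • v + k • w)) :
    ∀ i : ℕ, 2 * i ≤ J →
      |cr (Q (x + v) - Q x) (Q (x + ((i : ℤ) + 1) • v) - Q (x + (i : ℤ) • v))| ≤ 3 / J := by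
  have ha : 0 ≤ a := by
    by_contra hc
    push Not at hc
    have : a * (J : ℝ) ^ 2 ≤ 0 := mul_nonpos_of_nonpos_of_nonneg hc.le (by positivity)
    linarith
  have h : Ctx m δ a Q v w x ν J :=
    ⟨hN, hW, hν, hv1, hv2, hvm, hw, hvw, hδ0, hδν, hJ, ha, hδa, hbox⟩
  intro i hi
  have h1 := h.edges i hi
  simpa [Ctx.V, pt] using h1

end Pool.Agent.GridLat
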