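import Pool.Agent.GridLat.Defs

/-!
# The stability of one configuration of Pappus
-/

set_option autoImplicit false

namespace Pool.Agent.GridLat

theorem br_cyc (P Q R : ℝ × ℝ) : br P Q R = br Q R P := by
  simp only [br, cr, Prod.fst_sub, Prod.snd_sub]; ring

theorem br_anti (P Q R : ℝ × ℝ) : br P Q R = -br P R Q := by
  simp only [br, cr, Prod.fst_sub, Prod.snd_sub]; ring

/-- The three term relation. -/
theorem br_plucker (A A₁ Z J K : ℝ × ℝ) :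
    br Z A J * br A A₁ K - br Z A K * br A A₁ J = br A A₁ Z * br A J K := by
  simp only [br, cr, Prod.fst_sub, Prod.snd_sub]; ring

theorem prod_near {x x₀ y y₀ : ℝ} (hx : |x - x₀| ≤ 1 / 50) (hy : |y - y₀| ≤ 1 / 50)
    (h1 : |x₀| ≤ 16) (h2 : |y₀| ≤ 16) : |x * y - x₀ * y₀| ≤ 13 / 20 := by
  have e : x * y - x₀ * y₀ = (x - x₀) * (y - y₀) + (x₀ * (y - y₀) + y₀ * (x - x₀)) := by ring
  rw [e]
  have a1 : |(x - x₀) * (y - y₀)| ≤ 1 / 50 * (1 / 50) := by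
    rw [abs_mul]; exact mul_le_mul hx hy (abs_nonneg _) (by norm_num)
  have a2 : |x₀ * (y - y₀)| ≤ 16 * (1 / 50) := by
    rw [abs_mul]; exact mul_le_mul h1 hy (abs_nonneg _) (by norm_num)
  have a3 : |y₀ * (x - x₀)| ≤ 16 * (1 / 50) := by
    rw [abs_mul]; exact mul_le_mul h2 hx (abs_nonneg _) (by norm_num)
  refine le_trans (abs_add_le _ _) ?_
  refine le_trans (add_le_add_right (abs_add_le _ _) _) ?_
  linarith

theorem sub_near {P P₀ Q Q₀ : ℝ × ℝ} (hP : ‖P - P₀‖ ≤ 1 / 100) (hQ : ‖Q - Q₀‖ ≤ 1 / 100) :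
    |(Q - P).1 - (Q₀ - P₀).1| ≤ 1 / 50 ∧ |(Q - P).2 - (Q₀ - P₀).2| ≤ 1 / 50 := by
  have h1 : |(P - P₀).1| ≤ 1 / 100 := (norm_fst_le _).trans hP
  have h2 : |(P - P₀).2| ≤ 1 / 100 := (norm_snd_le _).trans hP
  have h3 : |(Q - Q₀).1| ≤ 1 / 100 := (norm_fst_le _).trans hQ
  have h4 : |(Q - Q₀).2| ≤ 1 / 100 := (norm_snd_le _).trans hQ
  simp only [Prod.fst_sub, Prod.snd_sub] at h1 h2 h3 h4 ⊢
  rw [abs_le] at h1 h2 h3 h4
  rw [abs_le, abs_le]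
  constructor <;> constructor <;> linarith [h1.1, h1.2, h2.1, h2.2, h3.1, h3.2, h4.1, h4.2]

/-- The determinant of three perturbed points. -/
theorem br_near {P P₀ Q Q₀ R R₀ : ℝ × ℝ} (hP : ‖P - P₀‖ ≤ 1 / 100) (hQ : ‖Q - Q₀‖ ≤ 1 / 100)
    (hR : ‖R - R₀‖ ≤ 1 / 100) (h1 : |(Q₀ - P₀).1| ≤ 16) (h2 : |(Q₀ - P₀).2| ≤ 16)
    (h3 : |(R₀ - P₀).1| ≤ 16) (h4 : |(R₀ - P₀).2| ≤ 16) :
    |br P Q R - br P₀ Q₀ R₀| ≤ 13 / 10 := by
  obtain ⟨a1, a2⟩ := sub_near hP hQ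
  obtain ⟨b1, b2⟩ := sub_near hP hR
  have c1 := prod_near a1 b2 h1 h4
  have c2 := prod_near a2 b1 h2 h3
  have e : br P Q R - br P₀ Q₀ R₀ =
      ((Q - P).1 * (R - P).2 - (Q₀ - P₀).1 * (R₀ - P₀).2) -
      ((Q - P).2 * (R - P).1 - (Q₀ - P₀).2 * (R₀ - P₀).1) := by
    simp only [br, cr]; ring
  rw [e]
  refine le_trans (abs_sub _ _) ?_
  linarith

/-- The nine points, in barycentric coordinates. -/
theorem pappus_id (uB uC' uB₁ uC₁ uX uY vB vC' vB₁ vC₁ vX vY wB wC' wB₁ wC₁ wX wY : ℝ) :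
    (wB * wB₁ * wC' * wC₁) * (uX * vY - uY * vX) =
      (wB * uX - wX * uB) * (wC₁ * vY * wC' * wB₁) + (wC₁ * vY - vC₁ * wY) * (wX * uB * wC' * wB₁)
      - (wC' * uY - wY * uC') * (wB₁ * vX * wB * wC₁)
      - (wB₁ * vX - vB₁ * wX) * (wY * uC' * wB * wC₁)
      + (uB * vC₁ - uC₁ * vB) * (wX * wY * wC' * wB₁)
      - (uC' * vB₁ - uB₁ * vC') * (wX * wY * wB * wC₁)
      + (uC₁ * wB₁ - uB₁ * wC₁) * (wX * wY * vC' * wB)
      + (vB * wC' - vC' * wB) * (wX * wY * uC₁ * wB₁) := by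
  ring

theorem four_le {a b c d : ℝ} (ha : |a| ≤ 50) (hb : |b| ≤ 50) (hc : |c| ≤ 50) (hd : |d| ≤ 50) :
    |a * b * c * d| ≤ 6250000 := by
  have h1 : |a * b| ≤ 2500 := by
    rw [abs_mul]; nlinarith [abs_nonneg a, abs_nonneg b]
  have h2 : |a * b * c| ≤ 125000 := by
    rw [abs_mul]; nlinarith [abs_nonneg (a * b), abs_nonneg c]
  rw [abs_mul]
  nlinarith [abs_nonneg (a * b * c), abs_nonneg d]

theorem term_le {e c ε : ℝ} (he : |e| ≤ ε) (hc : |c| ≤ 6250000) : |e * c| ≤ 6250000 * ε := by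
  rw [abs_mul, mul_comm]
  exact mul_le_mul hc he (abs_nonneg _) (by norm_num)

theorem pappus : ∃ C ε₀ : ℝ, 1 ≤ C ∧ 0 < ε₀ ∧ ∀ A B C' A₁ B₁ C₁ X Y Z : ℝ × ℝ,
    ‖A - (-8, -2)‖ ≤ ε₀ → ‖B - (-8, -4)‖ ≤ ε₀ → ‖C' - (-8, 4)‖ ≤ ε₀ →
    ‖A₁ - (-2, 2)‖ ≤ ε₀ → ‖B₁ - (-2, 1)‖ ≤ ε₀ → ‖C₁ - (-2, -1)‖ ≤ ε₀ →
    ‖X - (-4, 0)‖ ≤ ε₀ → ‖Y - (4, 0)‖ ≤ ε₀ → ‖Z - (0, 0)‖ ≤ ε₀ → ∀ ε : ℝ,
    |br A B C'| ≤ ε → |br A₁ B₁ C₁| ≤ ε → |br A B₁ X| ≤ ε → |br A₁ B X| ≤ ε →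
    |br A C₁ Y| ≤ ε → |br A₁ C' Y| ≤ ε → |br B C₁ Z| ≤ ε → |br B₁ C' Z| ≤ ε →
    |br X Y Z| ≤ C * ε := by
  refine ⟨2500, 1 / 100, by norm_num, by norm_num, ?_⟩
  intro A B C' A₁ B₁ C₁ X Y Z hA hB hC' hA₁ hB₁ hC₁ hX hY hZ ε h1 h2 h3 h4 h5 h6 h7 h8
  have num : ∀ x y : ℝ, |x| ≤ 8 → |y| ≤ 8 → |x - y| ≤ 16 := by
    intro x y hx hy
    rw [abs_le] at *
    constructor <;> linarith [hx.1, hx.2, hy.1, hy.2]
  have nr : ∀ {P Q R : ℝ × ℝ} {p q r : ℝ × ℝ}, ‖P - p‖ ≤ 1 / 100 → ‖Q - q‖ ≤ 1 / 100 →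
      ‖R - r‖ ≤ 1 / 100 → |p.1| ≤ 8 → |p.2| ≤ 8 → |q.1| ≤ 8 → |q.2| ≤ 8 → |r.1| ≤ 8 →
      |r.2| ≤ 8 → |br P Q R - br p q r| ≤ 13 / 10 := fun hP hQ hR a b c d e f =>
    br_near hP hQ hR (num _ _ c a) (num _ _ d b) (num _ _ e a) (num _ _ f b)
  have k8 : |(-8 : ℝ)| ≤ 8 := by norm_num
  have k2 : |(-2 : ℝ)| ≤ 8 := by norm_num
  have k4 : |(-4 : ℝ)| ≤ 8 := by norm_num
  have k4' : |(4 : ℝ)| ≤ 8 := by norm_num
  have k2' : |(2 : ℝ)| ≤ 8 := by norm_num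
  have k1' : |(1 : ℝ)| ≤ 8 := by norm_num
  have k1 : |(-1 : ℝ)| ≤ 8 := by norm_num
  have k0 : |(0 : ℝ)| ≤ 8 := by norm_num
  -- the base triangle
  have hD := nr hA hA₁ hZ k8 k2 k2 k2' k0 k0
  -- w
  have wB := nr hA hA₁ hB k8 k2 k2 k2' k8 k4
  have wC := nr hA hA₁ hC' k8 k2 k2 k2' k8 k4'
  have wB₁ := nr hA hA₁ hB₁ k8 k2 k2 k2' k2 k1'
  have wC₁ := nr hA hA₁ hC₁ k8 k2 k2 k2' k2 k1
  have wX := nr hA hA₁ hX k8 k2 k2 k2' k4 k0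
  have wY := nr hA hA₁ hY k8 k2 k2 k2' k4' k0
  -- u
  have uB := nr hA₁ hZ hB k2 k2' k0 k0 k8 k4
  have uC := nr hA₁ hZ hC' k2 k2' k0 k0 k8 k4'
  have uB₁ := nr hA₁ hZ hB₁ k2 k2' k0 k0 k2 k1'
  have uC₁ := nr hA₁ hZ hC₁ k2 k2' k0 k0 k2 k1
  have uX := nr hA₁ hZ hX k2 k2' k0 k0 k4 k0
  have uY := nr hA₁ hZ hY k2 k2' k0 k0 k4' k0
  -- v
  have vB := nr hZ hA hB k0 k0 k8 k2 k8 k4
  have vC := nr hZ hA hC' k0 k0 k8 k2 k8 k4'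
  have vB₁ := nr hZ hA hB₁ k0 k0 k8 k2 k2 k1'
  have vC₁ := nr hZ hA hC₁ k0 k0 k8 k2 k2 k1
  have vX := nr hZ hA hX k0 k0 k8 k2 k4 k0
  have vY := nr hZ hA hY k0 k0 k8 k2 k4' k0
  rw [show br ((-8 : ℝ), (-2 : ℝ)) (-2, 2) (0, 0) = -20 by norm_num [br, cr],
    abs_le] at hD
  rw [show br ((-8 : ℝ), (-2 : ℝ)) (-2, 2) (-8, -4) = -12 by norm_num [br, cr],
    abs_le] at wB
  rw [show br ((-8 : ℝ), (-2 : ℝ)) (-2, 2) (-8, 4) = 36 by norm_num [br, cr],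
    abs_le] at wC
  rw [show br ((-8 : ℝ), (-2 : ℝ)) (-2, 2) (-2, 1) = -6 by norm_num [br, cr],
    abs_le] at wB₁
  rw [show br ((-8 : ℝ), (-2 : ℝ)) (-2, 2) (-2, -1) = -18 by norm_num [br, cr],
    abs_le] at wC₁
  rw [show br ((-8 : ℝ), (-2 : ℝ)) (-2, 2) (-4, 0) = -4 by norm_num [br, cr],
    abs_le] at wX
  rw [show br ((-8 : ℝ), (-2 : ℝ)) (-2, 2) (4, 0) = -36 by norm_num [br, cr],
    abs_le] at wY
  rw [show br ((-2 : ℝ), (2 : ℝ)) (0, 0) (-8, -4) = -24 by norm_num [br, cr],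
    abs_le] at uB
  rw [show br ((-2 : ℝ), (2 : ℝ)) (0, 0) (-8, 4) = -8 by norm_num [br, cr],
    abs_le] at uC
  rw [show br ((-2 : ℝ), (2 : ℝ)) (0, 0) (-2, 1) = -2 by norm_num [br, cr],
    abs_le] at uB₁
  rw [show br ((-2 : ℝ), (2 : ℝ)) (0, 0) (-2, -1) = -6 by norm_num [br, cr],
    abs_le] at uC₁
  rw [show br ((-2 : ℝ), (2 : ℝ)) (0, 0) (-4, 0) = -8 by norm_num [br, cr],
    abs_le] at uX
  rw [show br ((-2 : ℝ), (2 : ℝ)) (0, 0) (4, 0) = 8 by norm_num [br, cr],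
    abs_le] at uY
  rw [show br ((0 : ℝ), (0 : ℝ)) (-8, -2) (-8, -4) = 16 by norm_num [br, cr],
    abs_le] at vB
  rw [show br ((0 : ℝ), (0 : ℝ)) (-8, -2) (-8, 4) = -48 by norm_num [br, cr],
    abs_le] at vC
  rw [show br ((0 : ℝ), (0 : ℝ)) (-8, -2) (-2, 1) = -12 by norm_num [br, cr],
    abs_le] at vB₁
  rw [show br ((0 : ℝ), (0 : ℝ)) (-8, -2) (-2, -1) = 4 by norm_num [br, cr],
    abs_le] at vC₁
  rw [show br ((0 : ℝ), (0 : ℝ)) (-8, -2) (-4, 0) = -8 by norm_num [br, cr],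
    abs_le] at vX
  rw [show br ((0 : ℝ), (0 : ℝ)) (-8, -2) (4, 0) = 8 by norm_num [br, cr],
    abs_le] at vY
  have bd : ∀ {t : ℝ}, -50 ≤ t → t ≤ 50 → |t| ≤ 50 := fun a b => abs_le.2 ⟨a, b⟩
  have id := pappus_id (br A₁ Z B) (br A₁ Z C') (br A₁ Z B₁) (br A₁ Z C₁) (br A₁ Z X) (br A₁ Z Y)
    (br Z A B) (br Z A C') (br Z A B₁) (br Z A C₁) (br Z A X) (br Z A Y)
    (br A A₁ B) (br A A₁ C') (br A A₁ B₁) (br A A₁ C₁) (br A A₁ X) (br A A₁ Y)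
  -- the brackets
  have cyc1 : br A₁ Z A = br A A₁ Z := by rw [br_cyc A A₁ Z]
  have cyc2 : br Z A A₁ = br A A₁ Z := by rw [br_cyc A A₁ Z, br_cyc A₁ Z A]
  have E1 : br A A₁ B * br A₁ Z X - br A A₁ X * br A₁ Z B = br A A₁ Z * br A₁ B X := by
    rw [br_plucker A₁ Z A B X, cyc1]
  have E3 : br A A₁ C' * br A₁ Z Y - br A A₁ Y * br A₁ Z C' = br A A₁ Z * br A₁ C' Y := by
    rw [br_plucker A₁ Z A C' Y, cyc1]
  have E8 : br A₁ Z C₁ * br A A₁ B₁ - br A₁ Z B₁ * br A A₁ C₁ = br A A₁ Z * br A₁ B₁ C₁ := by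
    rw [← cyc1, ← br_plucker A₁ Z A B₁ C₁]; ring
  have E5 : br A₁ Z B * br Z A C₁ - br A₁ Z C₁ * br Z A B = br A A₁ Z * br B C₁ Z := by
    rw [br_plucker Z A A₁ B C₁, cyc2, br_cyc Z B C₁]
  have E6 : br A₁ Z C' * br Z A B₁ - br A₁ Z B₁ * br Z A C' = br A A₁ Z * -br B₁ C' Z := by
    rw [br_plucker Z A A₁ C' B₁, cyc2, br_anti Z C' B₁, br_cyc Z B₁ C']
  have E2 : br A A₁ C₁ * br Z A Y - br Z A C₁ * br A A₁ Y = br A A₁ Z * -br A C₁ Y := by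
    have := br_plucker A A₁ Z C₁ Y
    linear_combination -this
  have E4 : br A A₁ B₁ * br Z A X - br Z A B₁ * br A A₁ X = br A A₁ Z * -br A B₁ X := by
    have := br_plucker A A₁ Z B₁ X
    linear_combination -this
  have E7 := br_plucker A A₁ Z B C'
  have EG : br A₁ Z X * br Z A Y - br A₁ Z Y * br Z A X = br A A₁ Z * br X Y Z := by
    rw [br_plucker Z A A₁ X Y, cyc2, br_cyc Z X Y]
  rw [E1, E2, E3, E4, E5, E6, E7, E8, EG] at id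
  have hD0 : br A A₁ Z ≠ 0 := by
    intro h
    rw [h] at hD
    norm_num at hD
  have bwB : |br A A₁ B| ≤ 50 := bd (by linarith [wB.1]) (by linarith [wB.2])
  have bwC : |br A A₁ C'| ≤ 50 := bd (by linarith [wC.1]) (by linarith [wC.2])
  have bwB₁ : |br A A₁ B₁| ≤ 50 := bd (by linarith [wB₁.1]) (by linarith [wB₁.2])
  have bwC₁ : |br A A₁ C₁| ≤ 50 := bd (by linarith [wC₁.1]) (by linarith [wC₁.2])
  have bwX : |br A A₁ X| ≤ 50 := bd (by linarith [wX.1]) (by linarith [wX.2])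
  have bwY : |br A A₁ Y| ≤ 50 := bd (by linarith [wY.1]) (by linarith [wY.2])
  have buB : |br A₁ Z B| ≤ 50 := bd (by linarith [uB.1]) (by linarith [uB.2])
  have buC : |br A₁ Z C'| ≤ 50 := bd (by linarith [uC.1]) (by linarith [uC.2])
  have buC₁ : |br A₁ Z C₁| ≤ 50 := bd (by linarith [uC₁.1]) (by linarith [uC₁.2])
  have bvC : |br Z A C'| ≤ 50 := bd (by linarith [vC.1]) (by linarith [vC.2])
  have bvX : |br Z A X| ≤ 50 := bd (by linarith [vX.1]) (by linarith [vX.2])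
  have bvY : |br Z A Y| ≤ 50 := bd (by linarith [vY.1]) (by linarith [vY.2])
  set F := br A A₁ B * br A A₁ B₁ * br A A₁ C' * br A A₁ C₁ with hF
  have id2 : F * br X Y Z =
      br A₁ B X * (br A A₁ C₁ * br Z A Y * br A A₁ C' * br A A₁ B₁)
      - br A C₁ Y * (br A A₁ X * br A₁ Z B * br A A₁ C' * br A A₁ B₁)
      - br A₁ C' Y * (br A A₁ B₁ * br Z A X * br A A₁ B * br A A₁ C₁)
      + br A B₁ X * (br A A₁ Y * br A₁ Z C' * br A A₁ B * br A A₁ C₁)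
      + br B C₁ Z * (br A A₁ X * br A A₁ Y * br A A₁ C' * br A A₁ B₁)
      + br B₁ C' Z * (br A A₁ X * br A A₁ Y * br A A₁ B * br A A₁ C₁)
      + br A₁ B₁ C₁ * (br A A₁ X * br A A₁ Y * br Z A C' * br A A₁ B)
      + br A B C' * (br A A₁ X * br A A₁ Y * br A₁ Z C₁ * br A A₁ B₁) := by
    apply mul_left_cancel₀ hD0
    linear_combination id
  have t1 := term_le h4 (four_le bwC₁ bvY bwC bwB₁)
  have t2 := term_le h5 (four_le bwX buB bwC bwB₁)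
  have t3 := term_le h6 (four_le bwB₁ bvX bwB bwC₁)
  have t4 := term_le h3 (four_le bwY buC bwB bwC₁)
  have t5 := term_le h7 (four_le bwX bwY bwC bwB₁)
  have t6 := term_le h8 (four_le bwX bwY bwB bwC₁)
  have t7 := term_le h2 (four_le bwX bwY bvC bwB)
  have t8 := term_le h1 (four_le bwX bwY buC₁ bwB₁)
  have hup : |F * br X Y Z| ≤ 50000000 * ε := by
    rw [id2]
    rw [abs_le] at t1 t2 t3 t4 t5 t6 t7 t8 ⊢
    constructor <;>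
      linarith [t1.1, t1.2, t2.1, t2.2, t3.1, t3.2, t4.1, t4.2, t5.1, t5.2, t6.1, t6.2, t7.1, t7.2,
        t8.1, t8.2]
  have hlow : 20000 ≤ |F| := by
    have l1 : 10 ≤ |br A A₁ B| := by
      rw [abs_of_neg (by linarith [wB.2])]; linarith [wB.2]
    have l2 : 4 ≤ |br A A₁ B₁| := by
      rw [abs_of_neg (by linarith [wB₁.2])]; linarith [wB₁.2]
    have l3 : 34 ≤ |br A A₁ C'| := by
      rw [abs_of_pos (by linarith [wC.1])]; linarith [wC.1]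
    have l4 : 16 ≤ |br A A₁ C₁| := by
      rw [abs_of_neg (by linarith [wC₁.2])]; linarith [wC₁.2]
    have m1 : 10 * 4 ≤ |br A A₁ B| * |br A A₁ B₁| :=
      mul_le_mul l1 l2 (by norm_num) (by linarith)
    have m2 : 10 * 4 * 34 ≤ |br A A₁ B| * |br A A₁ B₁| * |br A A₁ C'| :=
      mul_le_mul m1 l3 (by norm_num) (by positivity)
    have m3 : 10 * 4 * 34 * 16 ≤ |br A A₁ B| * |br A A₁ B₁| * |br A A₁ C'| * |br A A₁ C₁| :=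
      mul_le_mul m2 l4 (by norm_num) (by positivity)
    rw [hF, abs_mul, abs_mul, abs_mul]
    linarith
  rw [abs_mul] at hup
  have hfin : 20000 * |br X Y Z| ≤ 50000000 * ε :=
    le_trans (mul_le_mul_of_nonneg_right hlow (abs_nonneg _)) hup
  linarith

end Pool.Agent.GridLat
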