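import Pool.Agent.GridLat.LemS

/-!
# Sums of edges of a row
-/

set_option autoImplicit false

namespace Pool.Agent.GridLat

theorem cr_zero_left (q : ℝ × ℝ) : cr 0 q = 0 := by simp [cr]

theorem cr_zero_right (p : ℝ × ℝ) : cr p 0 = 0 := by simp [cr]

theorem cr_sum_left {ι : Type*} (s : Finset ι) (f : ι → ℝ × ℝ) (q : ℝ × ℝ) :
    cr (∑ i ∈ s, f i) q = ∑ i ∈ s, cr (f i) q := by
  classical
  induction s using Finset.induction_on with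
  | empty => simp [cr_zero_left]
  | insert i s hi ih => rw [Finset.sum_insert hi, Finset.sum_insert hi, cr_add_left, ih]

theorem cr_sum_right {ι : Type*} (s : Finset ι) (f : ι → ℝ × ℝ) (p : ℝ × ℝ) :
    cr p (∑ i ∈ s, f i) = ∑ i ∈ s, cr p (f i) := by
  classical
  induction s using Finset.induction_on with
  | empty => simp [cr_zero_right]
  | insert i s hi ih => rw [Finset.sum_insert hi, Finset.sum_insert hi, cr_add_right, ih]

theorem abs_cr_sum_le {ι κ : Type*} (s : Finset ι) (t : Finset κ) (f : ι → ℝ × ℝ)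
    (g : κ → ℝ × ℝ) (B : ℝ) (h : ∀ i ∈ s, ∀ j ∈ t, |cr (f i) (g j)| ≤ B) :
    |cr (∑ i ∈ s, f i) (∑ j ∈ t, g j)| ≤ s.card * (t.card * B) := by
  rw [cr_sum_left]
  refine le_trans (Finset.abs_sum_le_sum_abs _ _) ?_
  rw [← nsmul_eq_mul]
  refine Finset.sum_le_card_nsmul _ _ _ (fun i hi => ?_)
  rw [cr_sum_right]
  refine le_trans (Finset.abs_sum_le_sum_abs _ _) ?_
  rw [← nsmul_eq_mul]
  exact Finset.sum_le_card_nsmul _ _ _ (fun j hj => h i hi j hj)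

/-- The edges of a row. -/
def ed (Q : ℤ × ℤ → ℝ × ℝ) (x v : ℤ × ℤ) (i : ℕ) : ℝ × ℝ :=
  Q (x + ((i : ℤ) + 1) • v) - Q (x + (i : ℤ) • v)

theorem sum_ed (Q : ℤ × ℤ → ℝ × ℝ) (x v : ℤ × ℤ) (s n : ℕ) :
    ∑ i ∈ Finset.range n, ed Q x v (s + i) =
      Q (x + ((s : ℤ) + n) • v) - Q (x + (s : ℤ) • v) := by
  have h := Finset.sum_range_sub (fun i : ℕ => Q (x + ((s : ℤ) + i) • v)) n
  simp only [Nat.cast_zero, add_zero] at h
  rw [← h]
  refine Finset.sum_congr rfl (fun i _ => ?_)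
  simp only [ed]
  push_cast
  rw [add_assoc]

/-- Two edges of a row, at distance at most `J / 2`. -/
theorem edS {m : ℤ} {δ a : ℝ} {Q : ℤ × ℤ → ℝ × ℝ} (hN : Near m δ Q) (hW : Wide m a Q)
    {v w : ℤ × ℤ} {ν : ℕ} (hν : 1 ≤ ν) (hv1 : |v.1| ≤ ν) (hv2 : |v.2| ≤ ν)
    (hvm : |v.1| = ν ∨ |v.2| = ν) (hw : |w.1| + |w.2| = 1) (hvw : v.1 * w.2 - v.2 * w.1 = 1)
    (hδ0 : 0 ≤ δ) (hδν : 1000 * δ * ν ^ 2 ≤ 1) {J : ℕ} (hJ : 16 ≤ J) (hδa : 80 * δ < a * J ^ 2)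
    (x : ℤ × ℤ) (L : ℤ)
    (hbox : ∀ i k : ℤ, 0 ≤ i → i ≤ L + 3 * J → 8 * |k| ≤ J + 8 → box m (x + i • v + k • w))
    (i j : ℕ) (hij : i ≤ j) (hiL : (i : ℤ) ≤ L) (hj : 2 * (j - i) ≤ J) :
    |cr (ed Q x v i) (ed Q x v j)| ≤ 3 / J := by
  have h1 := lemS hN hW hν hv1 hv2 hvm hw hvw hδ0 hδν hJ hδa (x + (i : ℤ) • v)
    (fun i' k hi' hi2 hk => by
      have h2 := hbox (i + i') k (by omega) (by omega) hk
      rwa [add_smul, ← add_assoc] at h2) (j - i) hj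
  have e1 : x + (i : ℤ) • v + v = x + ((i : ℤ) + 1) • v := by
    rw [add_smul, one_smul, add_assoc]
  have e2 : x + (i : ℤ) • v + (((j - i : ℕ) : ℤ) + 1) • v = x + ((j : ℤ) + 1) • v := by
    rw [add_assoc, ← add_smul]
    congr 2
    omega
  have e3 : x + (i : ℤ) • v + ((j - i : ℕ) : ℤ) • v = x + (j : ℤ) • v := by
    rw [add_assoc, ← add_smul]
    congr 2
    omega
  rw [e1, e2, e3] at h1
  exact h1

theorem triS {m : ℤ} {δ a : ℝ} {Q : ℤ × ℤ → ℝ × ℝ} (hN : Near m δ Q) (hW : Wide m a Q)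
    {v w : ℤ × ℤ} {ν : ℕ} (hν : 1 ≤ ν) (hv1 : |v.1| ≤ ν) (hv2 : |v.2| ≤ ν)
    (hvm : |v.1| = ν ∨ |v.2| = ν) (hw : |w.1| + |w.2| = 1) (hvw : v.1 * w.2 - v.2 * w.1 = 1)
    (hδ0 : 0 ≤ δ) (hδν : 1000 * δ * ν ^ 2 ≤ 1) {J : ℕ} (hJ : 16 ≤ J) (hδa : 80 * δ < a * J ^ 2)
    (x : ℤ × ℤ)
    (hbox : ∀ i k : ℤ, 0 ≤ i → i ≤ 4 * J → 8 * |k| ≤ J + 8 → box m (x + i • v + k • w))
    (p q : ℕ) (hpq : 2 * (p + q) ≤ J) :
    |cr (Q (x + (p : ℤ) • v) - Q x) (Q (x + ((p : ℤ) + q) • v) - Q (x + (p : ℤ) • v))| ≤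
      3 * p * q / J := by
  have h1 := sum_ed Q x v 0 p
  have h2 := sum_ed Q x v p q
  simp only [Nat.cast_zero, zero_add, zero_smul, add_zero] at h1
  rw [← h1, ← h2]
  have h3 := abs_cr_sum_le (Finset.range p) (Finset.range q) (fun i => ed Q x v i)
    (fun j => ed Q x v (p + j)) (3 / J) (fun i hi j hj => by
      rw [Finset.mem_range] at hi hj
      exact edS hN hW hν hv1 hv2 hvm hw hvw hδ0 hδν hJ hδa x J
        (fun i' k hi' hi2 hk => hbox i' k hi' (by omega) hk) i (p + j) (by omega) (by omega)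
        (by omega))
  rw [Finset.card_range, Finset.card_range] at h3
  refine le_trans h3 (le_of_eq ?_)
  ring

end Pool.Agent.GridLat
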