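import Pool.Agent.GridLat.TriS
import Pool.Agent.GridLat.Pappus

/-!
# The row `e₁` is `N` times straighter: Pappus' theorem on the grid
-/

set_option autoImplicit false

namespace Pool.Agent.GridLat

theorem br_swap12 (p q r : ℝ × ℝ) : |br p q r| = |br q p r| := by
  have : br p q r = -br q p r := by unfold br cr; simp only [Prod.fst_sub, Prod.snd_sub]; ring
  rw [this, abs_neg]

theorem br_swap23 (p q r : ℝ × ℝ) : |br p q r| = |br p r q| := by
  have : br p q r = -br p r q := by unfold br cr; simp only [Prod.fst_sub, Prod.snd_sub]; ring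
  rw [this, abs_neg]

/-- The grid point with scaled coordinates `(s, t)`. -/
def zz (c : ℤ × ℤ) (N k : ℕ) (s t : ℤ) : ℤ × ℤ := c + ((k * N * s : ℤ), (k * t : ℤ))

/-- The scaled image of a grid point. -/
noncomputable def qq (Q : ℤ × ℤ → ℝ × ℝ) (c : ℤ × ℤ) (N k : ℕ) (s t : ℤ) : ℝ × ℝ :=
  ((Q (zz c N k s t) - Q c).1 / (k * N), (Q (zz c N k s t) - Q c).2 / k)

theorem zz_zero (c : ℤ × ℤ) (N k : ℕ) : zz c N k 0 0 = c := by
  unfold zz; ext <;> simp

theorem box_zz {m : ℤ} {N M k : ℕ} {c : ℤ × ℤ} (hN1 : 1 ≤ N) (hk : k ≤ M)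
    (hc1 : |c.1| + 410 * M * N ≤ m) (hc2 : |c.2| + 410 * M * N ≤ m) {s t : ℤ}
    (hs : |s| ≤ 400) (ht : |t| ≤ 400) : box m (zz c N k s t) := by
  have hkN : (k : ℤ) * N ≤ M * N := by
    have : (k : ℤ) ≤ M := by exact_mod_cast hk
    exact mul_le_mul_of_nonneg_right this (by positivity)
  have hkk : (k : ℤ) ≤ M * N := by
    have h1 : (k : ℤ) ≤ M := by exact_mod_cast hk
    have h2 : (1 : ℤ) ≤ N := by exact_mod_cast hN1
    have h3 : (0 : ℤ) ≤ M := by positivity
    nlinarith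
  have h0 : (0 : ℤ) ≤ M * N := by positivity
  constructor
  · simp only [zz, Prod.fst_add]
    refine (abs_add_le _ _).trans ?_
    have : |((k : ℤ) * N * s)| ≤ 400 * (M * N) := by
      rw [abs_mul, abs_of_nonneg (by positivity : (0 : ℤ) ≤ (k : ℤ) * N)]
      calc (k : ℤ) * N * |s| ≤ (M * N) * 400 :=
            mul_le_mul hkN hs (abs_nonneg _) h0
        _ = _ := by ring
    linarith
  · simp only [zz, Prod.snd_add]
    refine (abs_add_le _ _).trans ?_
    have : |((k : ℤ) * t)| ≤ 400 * (M * N) := by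
      rw [abs_mul, abs_of_nonneg (by positivity : (0 : ℤ) ≤ (k : ℤ))]
      calc (k : ℤ) * |t| ≤ (M * N) * 400 :=
            mul_le_mul hkk ht (abs_nonneg _) h0
        _ = _ := by ring
    linarith

theorem br_qq (Q : ℤ × ℤ → ℝ × ℝ) (c : ℤ × ℤ) {N k : ℕ} (hN : 1 ≤ N) (hk : 1 ≤ k)
    (s t s' t' s'' t'' : ℤ) :
    br (qq Q c N k s t) (qq Q c N k s' t') (qq Q c N k s'' t'') =
      br (Q (zz c N k s t)) (Q (zz c N k s' t')) (Q (zz c N k s'' t'')) / (k ^ 2 * N) := by
  have hN' : (N : ℝ) ≠ 0 := by positivity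
  have hk' : (k : ℝ) ≠ 0 := by positivity
  unfold qq br cr
  simp only [Prod.fst_sub, Prod.snd_sub]
  field_simp
  ring

theorem norm_qq {m : ℤ} {δ e : ℝ} {Q : ℤ × ℤ → ℝ × ℝ} (h : Near m δ Q) (hδ0 : 0 ≤ δ)
    {N M k : ℕ} {c : ℤ × ℤ} (hN1 : 1 ≤ N) (hk1 : 1 ≤ k) (hk : k ≤ M)
    (hc1 : |c.1| + 410 * M * N ≤ m) (hc2 : |c.2| + 410 * M * N ≤ m)
    (he : 16 * δ * N ≤ e) {s t : ℤ} (hs : |s| ≤ 8) (ht : |t| ≤ 8) :
    ‖qq Q c N k s t - ((s : ℝ), (t : ℝ))‖ ≤ e := by
  have hNr : (1 : ℝ) ≤ N := by exact_mod_cast hN1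
  have hkr : (1 : ℝ) ≤ k := by exact_mod_cast hk1
  have hN0 : (0 : ℝ) < N := by linarith
  have hk0 : (0 : ℝ) < k := by linarith
  have hbc : box m c := by
    have := box_zz (s := 0) (t := 0) hN1 hk hc1 hc2 (by norm_num) (by norm_num)
    rwa [zz_zero] at this
  have hbz : box m (zz c N k s t) := box_zz hN1 hk hc1 hc2 (by omega) (by omega)
  have h1 := h.lip c ((k * N * s : ℤ), (k * t : ℤ)) hbc hbz
  change ‖Q (zz c N k s t) - Q c - vv ((k * N * s : ℤ), (k * t : ℤ))‖ ≤ _ at h1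
  have hsr : |(s : ℝ)| ≤ 8 := by exact_mod_cast hs
  have htr : |(t : ℝ)| ≤ 8 := by exact_mod_cast ht
  have h2 : δ * (|(((k * N * s : ℤ), (k * t : ℤ)).1 : ℝ)| + |(((k * N * s : ℤ), (k * t : ℤ)).2 : ℝ)|)
      ≤ e * k := by
    push_cast
    rw [abs_mul, abs_mul, abs_mul, abs_of_pos hk0, abs_of_pos hN0]
    have h3 : (k : ℝ) * N * |(s : ℝ)| ≤ k * N * 8 :=
      mul_le_mul_of_nonneg_left hsr (by positivity)
    have h4 : (k : ℝ) * |(t : ℝ)| ≤ k * N * 8 := by
      calc (k : ℝ) * |(t : ℝ)| ≤ k * 8 := mul_le_mul_of_nonneg_left htr hk0.le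
        _ = k * 1 * 8 := by ring
        _ ≤ k * N * 8 := by gcongr
    calc δ * ((k : ℝ) * N * |(s : ℝ)| + k * |(t : ℝ)|) ≤ δ * (k * N * 8 + k * N * 8) :=
          mul_le_mul_of_nonneg_left (by linarith) hδ0
      _ = (16 * δ * N) * k := by ring
      _ ≤ e * k := mul_le_mul_of_nonneg_right he hk0.le
  have h5 := h1.trans h2
  have he0 : 0 ≤ e := le_trans (by positivity) he
  have h6 := (norm_fst_le _).trans h5
  have h7 := (norm_snd_le _).trans h5
  simp only [vv, Prod.fst_sub, Prod.snd_sub, Real.norm_eq_abs] at h6 h7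
  push_cast at h6 h7
  rw [Prod.norm_def, sup_le_iff]
  constructor
  · simp only [qq, Prod.fst_sub, Real.norm_eq_abs]
    have e1 : ((Q (zz c N k s t)).1 - (Q c).1) / (k * N) - s =
        ((Q (zz c N k s t)).1 - (Q c).1 - k * N * s) / (k * N) := by
      field_simp
    rw [e1, abs_div, abs_of_pos (by positivity : (0 : ℝ) < (k : ℝ) * N), div_le_iff₀ (by positivity)]
    calc _ ≤ e * k := h6
      _ = e * (k * 1) := by ring
      _ ≤ e * (k * N) := by gcongr
  · simp only [qq, Prod.snd_sub, Real.norm_eq_abs]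
    have e1 : ((Q (zz c N k s t)).2 - (Q c).2) / k - t =
        ((Q (zz c N k s t)).2 - (Q c).2 - k * t) / k := by
      field_simp
    rw [e1, abs_div, abs_of_pos hk0, div_le_iff₀ hk0]
    exact h7

/-- Three points on a line with direction `(αN, 1)`. -/
theorem tri_zz {m : ℤ} {δ a : ℝ} {Q : ℤ × ℤ → ℝ × ℝ} {N M k : ℕ} {c : ℤ × ℤ}
    (hN : Near m δ Q) (hW : Wide m a Q) (hδ0 : 0 ≤ δ) (hN1 : 1 ≤ N) (hk1 : 1 ≤ k) (hk : k ≤ M)
    (hδN : 36000 * δ * N ^ 2 ≤ 1) (hδa : 80 * δ < a * (16 * M : ℝ) ^ 2)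
    (hc1 : |c.1| + 410 * M * N ≤ m) (hc2 : |c.2| + 410 * M * N ≤ m)
    (α s t : ℤ) (p q : ℕ) (hα : |α| ≤ 6) (hs : |s| ≤ 8) (ht : |t| ≤ 8) (hpq : p + q ≤ 8) :
    |br (Q (zz c N k s t)) (Q (zz c N k (s + α * p) (t + p)))
      (Q (zz c N k (s + α * (p + q)) (t + p + q)))| ≤ 3 * k ^ 2 / M := by
  have hNr : (1 : ℝ) ≤ N := by exact_mod_cast hN1
  have hkr : (1 : ℝ) ≤ k := by exact_mod_cast hk1
  have hM1 : 1 ≤ M := hk1.trans hk
  have hMr : (1 : ℝ) ≤ M := by exact_mod_cast hM1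
  have hNz : (1 : ℤ) ≤ N := by exact_mod_cast hN1
  have hMz : (1 : ℤ) ≤ M := by exact_mod_cast hM1
  obtain ⟨ν, hν⟩ : ∃ ν : ℕ, ν = max (α.natAbs * N) 1 := ⟨_, rfl⟩
  have hαn : α.natAbs ≤ 6 := by
    have := Int.natCast_natAbs α
    omega
  have habsN : |α * (N : ℤ)| = ((α.natAbs * N : ℕ) : ℤ) := by
    rw [abs_mul, abs_of_nonneg (by positivity : (0 : ℤ) ≤ (N : ℤ)), Nat.cast_mul,
      Int.natCast_natAbs]
  have hν6 : ν ≤ 6 * N := by
    rw [hν]
    refine max_le ?_ (by omega)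
    exact Nat.mul_le_mul_right _ hαn
  have key := triS (v := (α * N, 1)) (w := (-1, 0)) (ν := ν) (J := 16 * M) hN hW
    (by rw [hν]; exact le_max_right _ _)
    (by
      simp only
      rw [habsN, hν]
      exact_mod_cast le_max_left _ _)
    (by
      simp only [abs_one]
      rw [hν]
      exact_mod_cast le_max_right _ _)
    (by
      simp only [abs_one]
      rcases Nat.eq_zero_or_pos (α.natAbs * N) with h0 | h0
      · right
        rw [hν, h0]; simp
      · left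
        rw [habsN, hν, max_eq_left h0])
    (by simp) (by simp) hδ0
    (by
      have h1 : (ν : ℝ) ≤ 6 * N := by exact_mod_cast hν6
      have h2 : (ν : ℝ) ^ 2 ≤ (6 * N) ^ 2 := by gcongr
      calc 1000 * δ * (ν : ℝ) ^ 2 ≤ 1000 * δ * (6 * N) ^ 2 :=
            mul_le_mul_of_nonneg_left h2 (by positivity)
        _ = 36000 * δ * N ^ 2 := by ring
        _ ≤ 1 := hδN)
    (by omega)
    (by push_cast; exact hδa)
    (zz c N k s t)
    (by
      intro i l hi hi2 hl
      push_cast at hi2 hl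
      have hl' : |l| ≤ 2 * M + 1 := by omega
      have hkN : (k : ℤ) * N ≤ M * N :=
        mul_le_mul_of_nonneg_right (by exact_mod_cast hk) (by positivity)
      have hMN : (M : ℤ) ≤ M * N := le_mul_of_one_le_right (by positivity) hNz
      have hMN1 : (1 : ℤ) ≤ M * N := le_trans hMz hMN
      have hkM : (k : ℤ) ≤ M * N := le_trans (by exact_mod_cast hk) hMN
      have hMN0 : (0 : ℤ) ≤ M * N := by positivity
      constructor
      · simp only [zz, Prod.fst_add, Prod.smul_fst, smul_eq_mul]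
        have b1 : |((k : ℤ) * N * s)| ≤ 8 * (M * N) := by
          rw [abs_mul, abs_of_nonneg (by positivity : (0 : ℤ) ≤ (k : ℤ) * N)]
          calc (k : ℤ) * N * |s| ≤ (M * N) * 8 := mul_le_mul hkN hs (abs_nonneg _) hMN0
            _ = _ := by ring
        have b2 : |i * (α * N)| ≤ 384 * (M * N) := by
          rw [abs_mul, abs_mul, abs_of_nonneg hi, abs_of_nonneg (by positivity : (0 : ℤ) ≤ (N : ℤ))]
          calc i * (|α| * N) ≤ (64 * M) * (6 * N) := by
                refine mul_le_mul (by omega) (mul_le_mul_of_nonneg_right hα (by positivity))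
                  (by positivity) (by positivity)
            _ = _ := by ring
        have b3 : |l * (-1)| ≤ 3 * (M * N) := by
          rw [abs_mul]; simp only [abs_neg, abs_one, mul_one]
          linarith
        have c1 : |c.1 + (k : ℤ) * N * s + i * (α * N) + l * (-1)| ≤
            |c.1| + |((k : ℤ) * N * s)| + |i * (α * N)| + |l * (-1)| := by
          refine (abs_add_le _ _).trans ?_
          refine add_le_add ?_ le_rfl
          refine (abs_add_le _ _).trans ?_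
          refine add_le_add ?_ le_rfl
          exact abs_add_le _ _
        linarith
      · simp only [zz, Prod.snd_add, Prod.smul_snd, smul_eq_mul]
        have b1 : |((k : ℤ) * t)| ≤ 8 * (M * N) := by
          rw [abs_mul, abs_of_nonneg (by positivity : (0 : ℤ) ≤ (k : ℤ))]
          calc (k : ℤ) * |t| ≤ (M * N) * 8 := mul_le_mul hkM ht (abs_nonneg _) hMN0
            _ = _ := by ring
        have b2 : |i * 1| ≤ 64 * (M * N) := by
          rw [mul_one, abs_of_nonneg hi]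
          linarith
        have c1 : |c.2 + (k : ℤ) * t + i * 1 + l * 0| ≤
            |c.2| + |((k : ℤ) * t)| + |i * 1| := by
          rw [mul_zero, add_zero]
          refine (abs_add_le _ _).trans ?_
          refine add_le_add ?_ le_rfl
          exact abs_add_le _ _
        linarith)
    (p * k) (q * k)
    (by
      have : (p + q) * k ≤ 8 * M := Nat.mul_le_mul hpq hk
      have e : p * k + q * k = (p + q) * k := by ring
      omega)
  have e1 : zz c N k s t + ((p * k : ℕ) : ℤ) • ((α * N, 1) : ℤ × ℤ) =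
      zz c N k (s + α * p) (t + p) := by
    unfold zz
    ext
    · simp only [Prod.fst_add, Prod.smul_fst, smul_eq_mul]; push_cast; ring
    · simp only [Prod.snd_add, Prod.smul_snd, smul_eq_mul]; push_cast; ring
  have e2 : zz c N k s t + (((p * k : ℕ) : ℤ) + ((q * k : ℕ) : ℤ)) • ((α * N, 1) : ℤ × ℤ) =
      zz c N k (s + α * (p + q)) (t + p + q) := by
    unfold zz
    ext
    · simp only [Prod.fst_add, Prod.smul_fst, smul_eq_mul]; push_cast; ring
    · simp only [Prod.snd_add, Prod.smul_snd, smul_eq_mul]; push_cast; ring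
  rw [e1, e2] at key
  have e3 : br (Q (zz c N k s t)) (Q (zz c N k (s + α * p) (t + p)))
      (Q (zz c N k (s + α * (p + q)) (t + p + q))) =
      cr (Q (zz c N k (s + α * p) (t + p)) - Q (zz c N k s t))
        (Q (zz c N k (s + α * (p + q)) (t + p + q)) - Q (zz c N k (s + α * p) (t + p))) := by
    unfold br cr
    simp only [Prod.fst_sub, Prod.snd_sub]
    ring
  rw [e3]
  refine key.trans ?_
  push_cast
  have hpq16 : (p : ℝ) * q ≤ 16 := by
    have hpq' : (p : ℝ) + q ≤ 8 := by exact_mod_cast hpq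
    nlinarith [sq_nonneg ((p : ℝ) - q), (Nat.cast_nonneg p : (0 : ℝ) ≤ p),
      (Nat.cast_nonneg q : (0 : ℝ) ≤ q)]
  have hM0 : (0 : ℝ) < M := by linarith
  rw [div_le_div_iff₀ (by positivity) hM0]
  calc 3 * ((p : ℝ) * k) * (q * k) * M = (p * q) * (3 * k ^ 2 * M) := by ring
    _ ≤ 16 * (3 * k ^ 2 * M) := mul_le_mul_of_nonneg_right hpq16 (by positivity)
    _ = 3 * k ^ 2 * (16 * M) := by ring

theorem row_triple : ∃ C : ℝ, 1 ≤ C ∧ ∀ (m : ℤ) (δ a : ℝ) (Q : ℤ × ℤ → ℝ × ℝ) (N M k : ℕ) (c : ℤ × ℤ),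
    Near m δ Q → Wide m a Q → 0 ≤ δ → 1 ≤ N → 1 ≤ k → k ≤ M → C * δ * N ^ 2 ≤ 1 →
    80 * δ < a * (16 * M : ℝ) ^ 2 → |c.1| + 410 * M * N ≤ m → |c.2| + 410 * M * N ≤ m →
    |cr (Q c - Q (c - ((4 * N * k : ℤ), 0))) (Q (c + ((4 * N * k : ℤ), 0)) - Q c)| ≤ C * k ^ 2 / M := by
  obtain ⟨C₀, ε₀, hC₀, hε₀, hpap⟩ := pappus
  refine ⟨max (max 36000 (16 / ε₀)) (3 * C₀), ?_, ?_⟩
  · refine le_trans ?_ (le_max_left _ _)
    exact le_trans (by norm_num) (le_max_left _ _)
  intro m δ a Q N M k c hN hW hδ0 hN1 hk1 hk hCδ hδa hc1 hc2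
  set C : ℝ := max (max 36000 (16 / ε₀)) (3 * C₀) with hC
  have hC1 : 36000 ≤ C := le_trans (le_max_left _ _) (le_max_left _ _)
  have hC2 : 16 / ε₀ ≤ C := le_trans (le_max_right _ _) (le_max_left _ _)
  have hC3 : 3 * C₀ ≤ C := le_max_right _ _
  have hNr : (1 : ℝ) ≤ N := by exact_mod_cast hN1
  have hkr : (1 : ℝ) ≤ k := by exact_mod_cast hk1
  have hMr : (1 : ℝ) ≤ M := by exact_mod_cast hk1.trans hk
  have hδN : 36000 * δ * N ^ 2 ≤ 1 := by
    refine le_trans ?_ hCδ
    exact mul_le_mul_of_nonneg_right (mul_le_mul_of_nonneg_right hC1 hδ0) (by positivity)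
  have he : 16 * δ * N ≤ ε₀ := by
    have h1 : 16 / ε₀ * δ * N ^ 2 ≤ 1 := by
      refine le_trans ?_ hCδ
      exact mul_le_mul_of_nonneg_right (mul_le_mul_of_nonneg_right hC2 hδ0) (by positivity)
    have h2 : 16 / ε₀ * δ * N ^ 2 * ε₀ = 16 * δ * N ^ 2 := by
      field_simp
    have h3 : 16 / ε₀ * δ * N ^ 2 * ε₀ ≤ 1 * ε₀ := mul_le_mul_of_nonneg_right h1 hε₀.le
    calc 16 * δ * N = 16 * δ * (N * 1) := by ring
      _ ≤ 16 * δ * (N * N) := by gcongr
      _ = 16 * δ * N ^ 2 := by ring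
      _ ≤ ε₀ := by rw [← h2]; linarith
  have hq := fun (s t : ℤ) (hs : |s| ≤ 8) (ht : |t| ≤ 8) =>
    norm_qq hN hδ0 hN1 hk1 hk hc1 hc2 he hs ht
  have htri := fun (α s t : ℤ) (p q : ℕ) (hα : |α| ≤ 6) (hs : |s| ≤ 8) (ht : |t| ≤ 8)
      (hpq : p + q ≤ 8) =>
    tri_zz hN hW hδ0 hN1 hk1 hk hδN hδa hc1 hc2 α s t p q hα hs ht hpq
  -- the scaled brackets
  have hpos : (0 : ℝ) < (k : ℝ) ^ 2 * N := by positivity
  have hbr : ∀ s t s' t' s'' t'' : ℤ,
      |br (Q (zz c N k s t)) (Q (zz c N k s' t')) (Q (zz c N k s'' t''))| ≤ 3 * k ^ 2 / M →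
      |br (qq Q c N k s t) (qq Q c N k s' t') (qq Q c N k s'' t'')| ≤ 3 / (M * N) := by
    intro s t s' t' s'' t'' h
    rw [br_qq Q c hN1 hk1, abs_div, abs_of_pos hpos, div_le_iff₀ hpos]
    refine h.trans (le_of_eq ?_)
    field_simp
  have r1 := hpap (qq Q c N k (-8) (-2)) (qq Q c N k (-8) (-4)) (qq Q c N k (-8) 4)
    (qq Q c N k (-2) 2) (qq Q c N k (-2) 1) (qq Q c N k (-2) (-1))
    (qq Q c N k (-4) 0) (qq Q c N k 4 0) (qq Q c N k 0 0)
    (by have := hq (-8) (-2) (by norm_num) (by norm_num); exact_mod_cast this)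
    (by have := hq (-8) (-4) (by norm_num) (by norm_num); exact_mod_cast this)
    (by have := hq (-8) 4 (by norm_num) (by norm_num); exact_mod_cast this)
    (by have := hq (-2) 2 (by norm_num) (by norm_num); exact_mod_cast this)
    (by have := hq (-2) 1 (by norm_num) (by norm_num); exact_mod_cast this)
    (by have := hq (-2) (-1) (by norm_num) (by norm_num); exact_mod_cast this)
    (by have := hq (-4) 0 (by norm_num) (by norm_num); exact_mod_cast this)
    (by have := hq 4 0 (by norm_num) (by norm_num); exact_mod_cast this)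
    (by have := hq 0 0 (by norm_num) (by norm_num); exact_mod_cast this)
    (3 / (M * N))
    (by
      rw [br_swap12]
      exact hbr _ _ _ _ _ _ (by
        simpa using htri 0 (-8) (-4) 2 6 (by norm_num) (by norm_num) (by norm_num) (by norm_num)))
    (by
      rw [br_swap23, br_swap12, br_swap23]
      exact hbr _ _ _ _ _ _ (by
        simpa using htri 0 (-2) (-1) 2 1 (by norm_num) (by norm_num) (by norm_num) (by norm_num)))
    (by
      rw [br_swap23]
      exact hbr _ _ _ _ _ _ (by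
        simpa using htri 2 (-8) (-2) 2 1 (by norm_num) (by norm_num) (by norm_num) (by norm_num)))
    (by
      rw [br_swap12, br_swap23]
      exact hbr _ _ _ _ _ _ (by
        simpa using htri 1 (-8) (-4) 4 2 (by norm_num) (by norm_num) (by norm_num) (by norm_num)))
    (by
      exact hbr _ _ _ _ _ _ (by
        simpa using htri 6 (-8) (-2) 1 1 (by norm_num) (by norm_num) (by norm_num) (by norm_num)))
    (by
      rw [br_swap23, br_swap12]
      exact hbr _ _ _ _ _ _ (by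
        simpa using htri (-3) 4 0 2 2 (by norm_num) (by norm_num) (by norm_num) (by norm_num)))
    (by
      exact hbr _ _ _ _ _ _ (by
        simpa using htri 2 (-8) (-4) 3 1 (by norm_num) (by norm_num) (by norm_num) (by norm_num)))
    (by
      rw [br_swap23, br_swap12]
      exact hbr _ _ _ _ _ _ (by
        simpa using htri (-2) 0 0 1 3 (by norm_num) (by norm_num) (by norm_num) (by norm_num)))
  rw [br_qq Q c hN1 hk1, abs_div, abs_of_pos hpos, div_le_iff₀ hpos, zz_zero] at r1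
  have eX : zz c N k (-4) 0 = c - ((4 * N * k : ℤ), 0) := by
    unfold zz
    ext
    · simp only [Prod.fst_add, Prod.fst_sub]; ring
    · simp
  have eY : zz c N k 4 0 = c + ((4 * N * k : ℤ), 0) := by
    unfold zz
    ext
    · simp only [Prod.fst_add]; ring
    · simp
  rw [eX, eY] at r1
  have e4 : cr (Q c - Q (c - ((4 * N * k : ℤ), 0))) (Q (c + ((4 * N * k : ℤ), 0)) - Q c) =
      -br (Q (c - ((4 * N * k : ℤ), 0))) (Q (c + ((4 * N * k : ℤ), 0))) (Q c) := by
    unfold br cr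
    simp only [Prod.fst_sub, Prod.snd_sub]
    ring
  rw [e4, abs_neg]
  refine r1.trans ?_
  have e5 : C₀ * (3 / (M * N)) * ((k : ℝ) ^ 2 * N) = 3 * C₀ * k ^ 2 / M := by
    field_simp
  rw [e5]
  gcongr

end Pool.Agent.GridLat
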